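import Pool.Agent.Helper96.VF.Defs

/-!
# Project VF: packets (upper and lower bound)

**Theorem.**  `f(n) = F(n) = ∑_{m ≤ n, (m,6)=1} (g(n/m) - κ(n/m))` for every `n`, where `f(n)` is the
largest size of a set `A ⊆ {1,…,n}` in which no element divides two others.

Upper bound: split `A` into classes `{2^a 3^b m}`, `(m,6) = 1`; the set `S_m` of exponent pairs
`(a,b)` has no element below two others, which gives `|S_m| ≤ g(n/m)` (rows, disjoint column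
intervals); when `κ(n/m) = 1` the classes `m` and `5m` cannot both reach `g`.

Lower bound: an explicit set `Aset n`.
-/

set_option autoImplicit false

namespace Pool.Agent.Helper96.VF

/-! ### A. Upper bound -/

/-- **ROW.**  Structure of a V-free set.
Proof.  Let `D` be the set of rows `b` containing at least two elements of `S` (`D ⊆ S.image Prod.snd`).
A row cannot contain three elements `(a₁,b), (a₂,b), (a₃,b)` with `a₁ < a₂ < a₃` (then `(a₁,b)` is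
below the two others).  So a row in `D` has exactly two elements; call them `(lo b, b)`,
`(hi b, b)`, `lo b < hi b` (e.g. `lo`, `hi` = minimum and maximum of the columns of row `b`).  Hence
`|S| = ∑_{b ∈ image} |row b| = |image| + |D|` (`Finset.card_eq_sum_card_fiberwise`).
If `b < b'` are in `D` and `hi b' ≥ lo b`, then `(lo b, b) ≤ (hi b, b)` and `(lo b, b) ≤ (hi b', b')`,
and the three elements are distinct (`b ≠ b'`): contradiction.  So `hi b' < lo b`.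
Last clause: if `b ∉ D` and `(a,b), (a',b) ∈ S`, then `a = a'` by definition of `D`. -/
def ROW : Prop :=
  ∀ S : Finset (ℕ × ℕ), VFree S → ∃ (D : Finset ℕ) (lo hi : ℕ → ℕ),
    (∀ b ∈ D, (lo b, b) ∈ S ∧ (hi b, b) ∈ S ∧ lo b < hi b) ∧
    (∀ b ∈ D, ∀ b' ∈ D, b < b' → hi b' < lo b) ∧
    (∀ a a' b, b ∉ D → (a, b) ∈ S → (a', b) ∈ S → a = a') ∧
    S.card = (S.image Prod.snd).card + D.card

/-- **TILE.**  A pigeonhole lemma.
Proof.  Induction on `|D|` (for all `l`).  `D = ∅`: the inequality is `0 ≤ u + 2 - l`; if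
`0 = u + 2 - l` the two implications have a false premise `1 ≤ |D|`.  `D ≠ ∅`: let `b₀ = max D`,
`D' = D \ {b₀}`, `l' = x b₀ + 2`.  For `b ∈ D'` we have `b < b₀`, so `x b ≥ x b₀ + 2 = l'`.  By
induction `2|D'| ≤ u + 2 - l'` in the sense of natural subtraction; as `l ≤ x b₀ ≤ u` we get
`2|D| ≤ 2 + (u + 2 - (x b₀ + 2)) = u + 2 - x b₀ ≤ u + 2 - l`.  If `2|D| = u + 2 - l` then
`x b₀ = l` (first claim, `b = b₀`), and `2|D'| = u + 2 - l'` with `l' = l + 2`, so if `|D| ≥ 2`, i.e.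
`|D'| ≥ 1`, the first claim for `D'` gives `b ∈ D'` with `x b = l + 2`. -/
def TILE : Prop :=
  ∀ (D : Finset ℕ) (x : ℕ → ℕ) (l u : ℕ),
    (∀ b ∈ D, ∀ b' ∈ D, b < b' → x b' + 2 ≤ x b) → (∀ b ∈ D, l ≤ x b ∧ x b ≤ u) →
    2 * D.card ≤ u + 2 - l ∧
      (2 * D.card = u + 2 - l → (1 ≤ D.card → ∃ b ∈ D, x b = l) ∧
        (2 ≤ D.card → ∃ b ∈ D, x b = l + 2))

/-- **U1A.**
Proof.  `A = Nat.log 2 y`, `B = Nat.log 3 y`.  All rows are `≤ B` (`3^b ≤ 2^a 3^b ≤ y`), all columns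
are `≤ A`.  By `ROW` `|S| = |image| + |D|`, `|image| ≤ B + 1`.  For `b < b'` in `D`:
`lo b' < hi b' < lo b`, so `lo b' + 2 ≤ lo b`; and `0 ≤ lo b ≤ A - 1` (as `lo b < hi b ≤ A`).  If
`D = ∅` we are done, otherwise `A ≥ 1` and `TILE` with `l = 0`, `u = A - 1` gives
`2|D| ≤ A + 1`, so `|D| ≤ (A+1)/2`. -/
def U1A : Prop :=
  ∀ (y : ℕ) (S : Finset (ℕ × ℕ)), 1 ≤ y → VFree S → InR y S →
    S.card ≤ (Nat.log 3 y + 1) + (Nat.log 2 y + 1) / 2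

/-- **U1B.**
Proof.  Notation of `U1A`; `A` is odd and `y < 2·3^B`.  Suppose `|S| ≥ B + 1 + (A+1)/2`.  Since
`|image| ≤ B + 1` and `|D| ≤ (A+1)/2` (proof of `U1A`), both are equalities: every row `0,…,B` is
nonempty and `2|D| = A + 1 = (A - 1) + 2 - 0`.  Row `B` is nonempty: `(a,B) ∈ S`, `2^a 3^B ≤ y <
2·3^B`, so `a = 0`, `(0,B) ∈ S`, and `B ∉ D` (`lo B = hi B = 0` otherwise).  By `TILE` (`l = 0`,
`u = A - 1`, `|D| ≥ 1`) there is `b ∈ D` with `lo b = 0`; `b ≤ B`, `b ≠ B`, so `b < B`, and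
`(0,b) ≤ (hi b, b)`, `(0,b) ≤ (0,B)`: three distinct elements, contradiction. -/
def U1B : Prop :=
  ∀ (y : ℕ) (S : Finset (ℕ × ℕ)), 1 ≤ y → VFree S → InR y S → Odd (Nat.log 2 y) →
    y < 2 * 3 ^ Nat.log 3 y → S.card ≤ Nat.log 3 y + (Nat.log 2 y + 1) / 2

/-- **GF.**  Formula for `g`.
Proof.  `A = Nat.log 2 y`, `B = Nat.log 3 y`, `Nat.log 4 y = A / 2`.  `H y = B + A/2 + 2`.  `y/2` (if
`y ≥ 2`): `Nat.log 2 (y/2) = A - 1`, `Nat.log 4 (y/2) = (A-1)/2`; `Nat.log 3 (y/2) = B` if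
`2·3^B ≤ y` and `B - 1` otherwise (then `B ≥ 1` because `y ≥ 2` and `y < 2·3^B`; note
`3^(B-1) ≤ y/2`); `H 0 = 0`.  So `H (y/2) = B + (A-1)/2 + 2` or `B + (A-1)/2 + 1` for `A ≥ 1`, i.e.
(`(A-1)/2 + 1 = (A+1)/2`) `B + 1 + (A+1)/2` or `B + (A+1)/2`.  `A` even: `H y - 1 = B + 1 + A/2 =
B + 1 + (A+1)/2` is the maximum.  `A` odd: `H y - 1 = B + 1 + (A-1)/2 = B + (A+1)/2`, and
`H(y/2)` is `B + 1 + (A+1)/2` or `B + (A+1)/2`. -/
def GF : Prop :=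
  ∀ y : ℕ, 1 ≤ y →
    ((Odd (Nat.log 2 y) ∧ y < 2 * 3 ^ Nat.log 3 y) → g y = Nat.log 3 y + (Nat.log 2 y + 1) / 2) ∧
    (¬ (Odd (Nat.log 2 y) ∧ y < 2 * 3 ^ Nat.log 3 y) →
      g y = Nat.log 3 y + 1 + (Nat.log 2 y + 1) / 2)

/-- **U1** = `U1A + U1B + GF`: `|S| ≤ g(y)` (`y = 0`: `S = ∅`). -/
def U1 : Prop :=
  ∀ (y : ℕ) (S : Finset (ℕ × ℕ)), VFree S → InR y S → S.card ≤ g y

/-- **U2E.**  The class `m` when `κ(y) = 1`.
Proof.  `3^(B+2) = 9·3^B ≤ y < 27·3^B`, so `Nat.log 3 y = B + 2 =: B₁`; `2^(2j+4) ≤ y < 2^(2j+5)`, so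
`A = Nat.log 2 y = 2j + 4` is even and `≥ 4`, and by `GF` `g y = B₁ + 1 + A/2`.  As in `U1A`
`|image| ≤ B₁ + 1`.  Row `B₁`: `(a,B₁) ∈ S` implies `2^a·9·3^B ≤ y < 12·3^B`, so `a = 0`; hence
`B₁ ∉ D`.
*Claim 1: `lo b ≥ 1` for `b ∈ D` if row `B₁` is nonempty.*  Then `(0,B₁) ∈ S`, `b < B₁`, and
`lo b = 0` would make `(0,b)` lie below `(hi b, b)` and `(0,B₁)`.
By `U1A` (its proof) `|D| ≤ (A+1)/2 = A/2`; so `|S| ≥ g y` forces `|image| = B₁ + 1` (all rows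
`0,…,B₁` nonempty) and `|D| = A/2 ≥ 2`.
By Claim 1 and `TILE` with `x = lo`, `l = 1`, `u = A - 1` (`2|D| = A = u + 2 - l`): there are
`b₁, b₂ ∈ D` with `lo b₁ = 1`, `lo b₂ = 3`.  If `b₁ < b₂` then `hi b₂ < lo b₁ = 1`, impossible
(`hi b₂ > lo b₂ = 3`); so `b₂ < b₁` and `hi b₁ < lo b₂ = 3`, i.e. `hi b₁ = 2`:
`(1,b₁), (2,b₁) ∈ S`.
*`b₁ ≤ B`:* `4·3^(b₁) ≤ y < 12·3^B` gives `3^(b₁) < 3^(B+1)`.
*`b₁ ≥ B`:* Let `b₁ < b ≤ B₁`.  Row `b` is nonempty, `(c,b) ∈ S`; if `c ≥ 1` then `(1,b₁) ≤ (c,b)`,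
`(1,b₁) ≤ (2,b₁)`, contradiction; so `(0,b) ∈ S`.  If `b₁ < B`, i.e. `b₁ + 3 ≤ B₁`, then
`(0,b₁+1)` is below `(0,b₁+2)` and `(0,b₁+3)`: contradiction.
So `b₁ = B`. -/
def U2E : Prop :=
  ∀ (y B j : ℕ) (S : Finset (ℕ × ℕ)), 10 * 3 ^ B ≤ y → y < 12 * 3 ^ B → 16 * 4 ^ j ≤ y →
    y < 20 * 4 ^ j → VFree S → InR y S → g y ≤ S.card → (1, B) ∈ S ∧ (2, B) ∈ S

/-- **U2O.**  The class `5m` when `κ(5y) = 1`.
Proof.  `3^B ≤ y < 3^(B+1)` (`5y < 12·3^B < 15·3^B`), so `Nat.log 3 y = B`; `A = Nat.log 2 y = 2j+1`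
is odd; `2·3^B ≤ y`, so by `GF` `g y = B + 1 + (A+1)/2`.  As in `U1A` `|image| ≤ B + 1` and
`|D| ≤ (A+1)/2`, so `|S| ≥ g y` forces all rows `0,…,B` nonempty and `2|D| = A + 1`.  Apply `TILE`
with `x = hi`, `l = 1`, `u = A` (`hi b' < lo b < hi b` gives the spacing; `1 ≤ hi b ≤ A`):
`2|D| = A + 1 = u + 2 - l` and `|D| ≥ 1`, so there is `b ∈ D` with `hi b = 1`, `lo b = 0`.  If
`b < B`: row `B` is nonempty, `(c,B) ∈ S`, and `(0,b) ≤ (c,B)`, `(0,b) ≤ (1,b)`: contradiction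
(`b ≤ B` because `3^b ≤ y`).  So `b = B` and `(1,B) ∈ S`. -/
def U2O : Prop :=
  ∀ (y B j : ℕ) (S : Finset (ℕ × ℕ)), 2 * 3 ^ B ≤ y → 5 * y < 12 * 3 ^ B → 2 * 4 ^ j ≤ y →
    y < 4 * 4 ^ j → VFree S → InR y S → g y ≤ S.card → (1, B) ∈ S

/-- **UNQ.**  Uniqueness of `x = 2^a 3^b m`, `(m,6) = 1`. -/
def UNQ : Prop :=
  ∀ a b m a' b' m' : ℕ, Nat.Coprime m 6 → Nat.Coprime m' 6 →
    2 ^ a * 3 ^ b * m = 2 ^ a' * 3 ^ b' * m' → a = a' ∧ b = b' ∧ m = m'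

/-- **CLS.**  Decomposition into classes.
Proof.  Every `x ≥ 1` is `2^a 3^b m` with `(m,6) = 1` (e.g. `Nat.exists_eq_pow_mul_and_not_dvd`
twice, or `padicValNat`), uniquely (`UNQ`), and `x ≤ n` gives `m ≤ n`, `m ≥ 1`, `a, b ≤ x ≤ n`
(`a < 2^a`).  So `A` is in bijection with the sigma type over `m ∈ Cop n`
(`Finset.card_eq_sum_card_fiberwise` with the map `x ↦ m`, then `Finset.card_bij`; or
`Finset.card_sigma`). -/
def CLS : Prop :=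
  ∀ (n : ℕ) (A : Finset ℕ), A ⊆ Finset.Icc 1 n →
    A.card = ∑ m ∈ Cop n,
      (((Finset.range (n + 1)) ×ˢ (Finset.range (n + 1))).filter
        fun u => 2 ^ u.1 * 3 ^ u.2 * m ∈ A).card

/-- **UP.**  The upper bound, from `U1`, `U2E`, `U2O`, `CLS`.
Proof.  For `m ∈ Cop n` let `S_m` be the set of `u = (a,b)` with `2^a 3^b m ∈ A` (as in `CLS`).  It is
V-free: `u ≤ v` gives `2^{u.1}3^{u.2} m ∣ 2^{v.1}3^{v.2} m`, and distinct pairs give distinct numbers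
(`UNQ`); `InR (n/m) S_m` by `Nat.le_div_iff_mul_le`.  So `d_m := g(n/m) - |S_m| ≥ 0` (`U1`).
*Claim: if `κ(n/m) = 1` then `5m ∈ Cop n` and `d_m + d_{5m} ≥ 1`.*  Let `y = n/m`,
`16·4^j ≤ y < 20·4^j`, `10·3^B ≤ y < 12·3^B`; `n/(5m) = y/5 =: y'` (`Nat.div_div_eq_div_mul`), and
`2·3^B ≤ y'`, `5y' ≤ y < 12·3^B`, `2·4^j ≤ y' < 4·4^j`; `y' ≥ 1` so `5m ≤ n`.  If `d_m = d_{5m} = 0`
then `(1,B), (2,B) ∈ S_m` (`U2E`) and `(1,B) ∈ S_{5m}` (`U2O`), so `x = 2·3^B m`, `2x = 4·3^B m` and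
`5x = 2·3^B·5m` are in `A`, and `x` divides the two others: contradiction.
*Disjointness:* if `κ(n/m) = 1` then `κ(n/(5m)) = 0`: with `y' = n/(5m)` we have
`2·4^j ≤ y' < 4·4^j`, so `Nat.log 2 y' = 2j+1`, whereas `16·4^i ≤ y' < 20·4^i` would give
`Nat.log 2 y' = 2i+4`.  Let `P = {m ∈ Cop n : κ(n/m) = 1}`, `P₅ = {5m : m ∈ P} ⊆ Cop n`; `P`, `P₅` are
disjoint.  So `∑_{m ∈ Cop n} d_m ≥ ∑_{m ∈ P} (d_m + d_{5m}) ≥ |P|`, i.e.
`∑ |S_m| ≤ ∑ g(n/m) - ∑ κ(n/m) = F n` (`g(y) ≥ 1` for `y ≥ 1`, so natural subtraction is harmless);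
conclude by `CLS`. -/
def UP : Prop := ∀ (n : ℕ) (A : Finset ℕ), A ⊆ Finset.Icc 1 n → Adm A → A.card ≤ F n

/-- **UP5.**  The upper bound in the model without quotient `5`, from `U1`, `CLS`, `UNQ`: as in `UP`
each `S_m` is V-free, because `u ≤ v`, `u ≠ v` gives `2^{v.1}3^{v.2}m = k·2^{u.1}3^{u.2}m` with
`k = 2^{v.1-u.1}3^{v.2-u.2} > 1`, `k ∈ D`. -/
def UP5 : Prop :=
  ∀ (D : Set ℕ) (n : ℕ) (A : Finset ℕ), (∀ a b : ℕ, 1 < 2 ^ a * 3 ^ b → 2 ^ a * 3 ^ b ∈ D) →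
    A ⊆ Finset.Icc 1 n → AdmD D A → A.card ≤ F5 n

/-! ### B. Lower bound -/

/-- **CE.**  Size of a class of type `e`.
Proof.  Let `z = N/M` (real).  `SE N M` is the disjoint union of
`S' = {(a,b) : a = 2i, z/4 < 4^i 3^b ≤ z}` and `S'' = {(a,b) : a = 2i+1, z/6 < 2·4^i 3^b ≤ z/2}`
(the bounds `a, b ≤ N` are automatic from `2^a 3^b ≤ N`).
`|S'| = #{b : 3^b ≤ z}`: project to `b`.  For each `b` with `M·3^b ≤ N` there is exactly one `i` with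
`N < 4·M·4^i·3^b` and `M·4^i·3^b ≤ N`, namely `i = Nat.log 4 (N/(M·3^b))`; if `M·3^b > N` none.  The
number of `b` with `M·3^b ≤ N`, i.e. `3^b ≤ N/M`, is `Nat.log 3 (N/M) + 1` (`0` if `N/M = 0`).
`|S''| = #{i : 4^(i+1) ≤ z}`: project to `i`.  For given `i` the condition is
`N < 12·M·4^i·3^b` and `4·M·4^i·3^b ≤ N`, i.e. `3^b ≤ N/(4M4^i) < 3·3^b`: exactly one `b` if
`4·M·4^i ≤ N`, none otherwise.  The number of `i` with `4^(i+1) ≤ N/M` is `Nat.log 4 (N/M)` (`0` if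
`N/M = 0`).  Total: `Nat.log 3 (N/M) + 1 + Nat.log 4 (N/M) = H(N/M) - 1` if `N/M ≥ 1`, and `0`
otherwise. -/
def CE : Prop := ∀ N M : ℕ, 0 < M → (SE N M).card = H (N / M) - 1

/-- **CO.**  Size of a class of type `o`.
Proof.  As in `CE`: `S' = {(2i+1,b) : z/4 < 2·4^i 3^b ≤ z}`: for each `b` with `2M·3^b ≤ N` exactly one
`i`, number `#{b : 3^b ≤ N/(2M)}`; `S'' = {(2i,b) : z/6 < 4^i 3^b ≤ z/2}`: for each `i` with
`2M·4^i ≤ N` exactly one `b` (`3^b ≤ N/(2M4^i) < 3·3^b`), number `#{i : 4^i ≤ N/(2M)}`.  Total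
`H(N/(2M)) = H(N/M/2)`. -/
def CO : Prop := ∀ N M : ℕ, 0 < M → (SO N M).card = H (N / M / 2)

/-- **CRD.**  Coordinates exist.  Proof: `j = Nat.log 4 (n/m)`, `b = Nat.log 3 (n/m)`
(`Nat.pow_log_le_self`, `Nat.lt_pow_succ_log_self`). -/
def CRD : Prop := ∀ n m : ℕ, 0 < m → m ≤ n → ∃ p q : ℕ, Co n m p q

/-- **TYC.**  The type in coordinates.
Proof.  `p = 4^j m`, `q = 3^b m`, `p ≤ n < 4p`, `q ≤ n < 3q`.  If `2·4^i m ≤ n < 4·4^i m` then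
`i = j` (powers of `4`: `4^i m ≤ n < 4·4^j m` and `4^j m ≤ n < 4·4^i m`), so `Od n m ↔ 2p ≤ n`.  In
`Ka`: `16·4^i m ≤ 5n < 20·4^i m` gives `4^i m ≤ n < 4·4^i m`, `i = j`, and conversely `5n < 20p` holds;
`2·3^c m ≤ n`, `5n < 12·3^c m` gives `3^c m ≤ n < 3·3^c m`, `c = b`.  In `Ex`:
`2·4^i m ≤ n`, `2n < 5·4^i m` gives `i = j`; `5·3^c m ≤ 3n`, `n < 2·3^c m` gives
`3^c m ≤ n < 3·3^c m`, `c = b`.
Second claim: `m = 5m₀`; `16·4^i ≤ n/m₀ < 20·4^i` iff `16·4^i m₀ ≤ n < 20·4^i m₀` iff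
`16·4^i m ≤ 5n < 20·4^i m`; `10·3^c ≤ n/m₀ < 12·3^c` iff `2·3^c m ≤ n`, `5n < 12·3^c m`: so
`Kap (n/m₀) ↔ Ka n m`. -/
def TYC : Prop :=
  ∀ n m p q : ℕ, 0 < m → Co n m p q → (Ty n m ↔ TC (5 ∣ m) n p q) ∧
    (5 ∣ m → (Kap (n / (m / 5)) ↔ (16 * p ≤ 5 * n ∧ 2 * q ≤ n ∧ 5 * n < 12 * q)))

/-- **R5.**  Coordinates of `m` and `5m`.
Proof.  `p = 4^j m`, `p' = 4^(j')·5m`, `p' ≤ n < 4p'`, `p ≤ n < 4p`: so `4^(j')·5 < 4·4^j` and
`4^j < 4·4^(j')·5`, i.e. `(5/4) 4^(j') < 4^j < 20·4^(j')`, so `j = j' + 1` or `j = j' + 2`: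
`5p = 4p'` or `5p = 16p'`.  Similarly `q = 3^b m`, `q' = 3^(b')·5m`: `5·3^(b') < 3·3^b`,
`3^b < 15·3^(b')`, so `b = b'+1` or `b'+2`: `5q = 3q'` or `5q = 9q'`. -/
def R5 : Prop :=
  ∀ n m p q p' q' : ℕ, 0 < m → Co n m p q → Co n (5 * m) p' q' →
    (5 * p = 4 * p' ∨ 5 * p = 16 * p') ∧ (5 * q = 3 * q' ∨ 5 * q = 9 * q')

/-- **R7.**  Coordinates of `m` and `7m`.
Proof.  `7·4^(j') < 4·4^j`, `4^j < 28·4^(j')`: `j = j' + 1` or `j' + 2`; `7·3^(b') < 3·3^b`,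
`3^b < 21·3^(b')`: `b = b' + 1` or `b' + 2`. -/
def R7 : Prop :=
  ∀ n m p q p' q' : ℕ, 0 < m → Co n m p q → Co n (7 * m) p' q' →
    (7 * p = 4 * p' ∨ 7 * p = 16 * p') ∧ (7 * q = 3 * q' ∨ 7 * q = 9 * q')

/-- the range conditions of coordinates. -/
def Rg (n p q : ℕ) : Prop := p ≤ n ∧ n < 4 * p ∧ q ≤ n ∧ n < 3 * q

/-- relation between the coordinates of `m` (`p, q`) and of `5m` (`p', q'`). -/
def L5 (p q p' q' : ℕ) : Prop :=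
  (5 * p = 4 * p' ∨ 5 * p = 16 * p') ∧ (5 * q = 3 * q' ∨ 5 * q = 9 * q')

/-- relation between the coordinates of `m` (`p, q`) and of `7m` (`p', q'`). -/
def L7 (p q p' q' : ℕ) : Prop :=
  (7 * p = 4 * p' ∨ 7 * p = 16 * p') ∧ (7 * q = 3 * q' ∨ 7 * q = 9 * q')

/-- **C3** (a finite check in linear arithmetic; `(p₁,q₁)`, `(p,q)`, `(p₂,q₂)` are the coordinates of
`m/5`, `m`, `5m`): if the types of `m/5` and `m` differ then the types of `5m` and `m` agree.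
Proof.  Put `u = n/p ∈ [1,4)`, `v = n/q ∈ [1,3)`; for `m/5`: `u₁ = 5u/4` (`u < 16/5`) or `5u/16`,
`v₁ = 5v/3` (`v < 9/5`) or `5v/9`; for `5m`: `u₂ = 4u/5` (`u ≥ 5/4`) or `16u/5`, `v₂ = 3v/5`
(`v ≥ 5/3`) or `9v/5`.  Type `o` iff `u ≥ 2`, not (`5 ∣ m`, `u ≥ 16/5`, `2 ≤ v < 12/5`), not
(`u < 5/2`, `5/3 ≤ v < 2`).  Verified by computer on all cells.  In Lean: split the 16 cases of
`L5`, `L5`, then `by_cases` on the comparisons and `omega` (variables `n, p₁, q₁, …`; everything is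
linear; e.g. replace `p₁ = 4t`, … or keep the equations). -/
def C3 : Prop :=
  ∀ (f : Prop) (n p₁ q₁ p q p₂ q₂ : ℕ), Rg n p₁ q₁ → Rg n p q → Rg n p₂ q₂ → L5 p₁ q₁ p q →
    L5 p q p₂ q₂ → ¬ (TC f n p₁ q₁ ↔ TC True n p q) → (TC True n p₂ q₂ ↔ TC True n p q)

/-- **S1A.**  Same situation: no counted power lies in `(5y/6, y]`.  (Same method as `C3`.) -/
def S1A : Prop :=
  ∀ (f : Prop) (n p₁ q₁ p q : ℕ), Rg n p₁ q₁ → Rg n p q → L5 p₁ q₁ p q →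
    ¬ (TC f n p₁ q₁ ↔ TC True n p q) →
    (¬ TC True n p q → 6 * p ≤ 5 * n ∧ 6 * q ≤ 5 * n) ∧
      (TC True n p q → 12 * p ≤ 5 * n ∧ ¬ (2 * q ≤ n ∧ 5 * n < 12 * q))

/-- **C5** (finite check, `(p₃,q₃)`, `(p₇,q₇)`, `(p,q)`, `(p₂,q₂)` are the coordinates of `m/35`,
`m/7`, `m`, `5m`): if the types of `m/35`, `m/7` differ and those of `m/7`, `m` differ, then those of
`5m` and `m` agree.  (Same method as `C3`; useful: first determine when the types of `m/7` and `m`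
differ and those of `m/35`, `m/7` differ, in terms of `u = n/p`, `v = n/q`.) -/
def C5 : Prop :=
  ∀ (f : Prop) (n p₃ q₃ p₇ q₇ p q p₂ q₂ : ℕ), Rg n p₃ q₃ → Rg n p₇ q₇ → Rg n p q → Rg n p₂ q₂ →
    L5 p₃ q₃ p₇ q₇ → L7 p₇ q₇ p q → L5 p q p₂ q₂ →
    ¬ (TC f n p₃ q₃ ↔ TC True n p₇ q₇) → ¬ (TC True n p₇ q₇ ↔ TC True n p q) →
    (TC True n p₂ q₂ ↔ TC True n p q)

/-- **S1B.**  Same situation: no counted power lies in `(35y/36, y]`. -/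
def S1B : Prop :=
  ∀ (f : Prop) (n p₃ q₃ p₇ q₇ p q : ℕ), Rg n p₃ q₃ → Rg n p₇ q₇ → Rg n p q →
    L5 p₃ q₃ p₇ q₇ → L7 p₇ q₇ p q →
    ¬ (TC f n p₃ q₃ ↔ TC True n p₇ q₇) → ¬ (TC True n p₇ q₇ ↔ TC True n p q) →
    (¬ TC True n p q → 36 * p ≤ 35 * n ∧ 36 * q ≤ 35 * n) ∧
      (TC True n p q → 72 * p ≤ 35 * n ∧ ¬ (2 * q ≤ n ∧ 35 * n < 72 * q))

/-- **HC.**  The counts do not change between `cy/36` and `y`.
Proof.  `y = n/m`, `z = cn/(36m)`, `p = 4^j m`, `q = 3^b m`.  `Nat.log 4 (n/m) = j`,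
`Nat.log 3 (n/m) = b`.  First claim: `36·4^j m ≤ cn` and `cn ≤ 36n < 36·4^(j+1) m`, so
`Nat.log 4 (cn/(36m)) = j`; likewise `Nat.log 3 (..) = b`; both quotients are `≥ 1`.
Second claim: `72p ≤ cn ≤ 36n` gives `2p ≤ n`.  `n/m/2 = n/(2m)`, `cn/(36m)/2 = cn/(72m)`;
`Nat.log 4` of both is `j` (`72·4^j m ≤ cn ≤ 36n < 72·4^(j+1) m` as `n < 4p`).  If `2q ≤ n`, then
`72q ≤ cn` and `Nat.log 3` of both is `b` (`n < 3q < 2·3^(b+1) m`).  If `n < 2q` then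
(`n ≥ 2p ≥ 2m`, so `q > m`, `b ≥ 1`) `Nat.log 3` of both is `b - 1`: `2·3^(b-1) m = 2q/3 ≤ n`, and
`72·3^(b-1) m = 24q ≤ 30n ≤ cn`. -/
def HC : Prop :=
  ∀ n m p q c : ℕ, 0 < m → Co n m p q → 30 ≤ c → c ≤ 36 →
    (36 * p ≤ c * n → 36 * q ≤ c * n → H (c * n / (36 * m)) = H (n / m)) ∧
    (72 * p ≤ c * n → ¬ (2 * q ≤ n ∧ c * n < 72 * q) →
      H (c * n / (36 * m) / 2) = H (n / m / 2))

open Classical in
/-- **GS2.**  `g` and `H(y/2)` in coordinates.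
Proof.  `H(n/m) = b + j + 2`.  `n/m/2 = n/(2m)`: the number of `i` with `2·4^i m ≤ n` is `j+1` if
`2p ≤ n` and `j` otherwise (`2·4^(j+1) m = 8p > n`; `2·4^(j-1) m = p/2 ≤ n`); the number of `c` with
`2·3^c m ≤ n` is `b+1` if `2q ≤ n`, else `b`.  So `H(n/m/2) = H(n/m) - [n<2p] - [n<2q]` (if `n < 2m`
then `j = b = 0`, `H(0) = 0 = 2 - 1 - 1`).  `g = max(H - 1, H(y/2))` is `H` iff both brackets
vanish, else `H - 1`. -/
def GS2 : Prop :=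
  ∀ n m p q : ℕ, 0 < m → Co n m p q →
    g (n / m) = H (n / m) - 1 + (if 2 * p ≤ n ∧ 2 * q ≤ n then 1 else 0) ∧
    H (n / m / 2) + (if 2 * p ≤ n then 0 else 1) + (if 2 * q ≤ n then 0 else 1) = H (n / m)

open Classical in
/-- **VAL.**  The size of the class of `m` in `Aset n`.
Proof.  Take coordinates (`CRD`, `TYC`).  Let `T = Ty n m`.
*Step 1: the left side equals `if T then H(n/m/2) else H(n/m) - 1`.*  If `cc n m = 36` then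
`36n/(36m) = n/m`.  If `cc n m = 30`: `5 ∣ m`, the types of `m/5` and `m` differ; coordinates of
`m/5` (`CRD`, `0 < m/5 ≤ n`), `R5` for `m/5` (`5·(m/5) = m`), `S1A`, then `HC` with `c = 30`.  If
`cc n m = 35`: `35 ∣ m`, coordinates of `m/35`, `m/7`, `R5` for `m/35` (`5·(m/35) = m/7`), `R7` for
`m/7`, `5 ∣ m/7`, `5 ∣ m`, `S1B`, `HC` with `c = 35`.
*Step 2.*  By `GS2` and `TYC`: if `T`: `2p ≤ n`, so `H(n/m/2) = H(n/m) - [n < 2q]`,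
`g = H - 1 + [2q ≤ n]`: equal, and the bracket `5 ∣ m ∧ Kap (n/(m/5))` is false because `T` holds
(`TYC`).  If `¬T`: `H(n/m) - 1 = g(n/m) - [2p ≤ n ∧ 2q ≤ n]`, and
`2p ≤ n ∧ 2q ≤ n` holds iff `5 ∣ m ∧ 16p ≤ 5n ∧ 2q ≤ n ∧ 5n < 12q` (if `2p ≤ n`, `2q ≤ n` and `¬T`, the
second exception `n < 2q` is impossible, so the first holds; conversely `16p ≤ 5n` gives
`2p ≤ n`). -/
def VAL : Prop :=
  ∀ n m : ℕ, 0 < m → m ≤ n →
    (if Ty n m then H (cc n m * n / (36 * m) / 2) else H (cc n m * n / (36 * m)) - 1) =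
      g (n / m) - (if 5 ∣ m ∧ Kap (n / (m / 5)) then 1 else 0)

/-- **C3N**: `C3` for the types (from `CRD`, `TYC`, `R5`, `C3`; `m/5`, `m`, `5m ≤ n`). -/
def C3N : Prop :=
  ∀ n m : ℕ, 0 < m → 5 ∣ m → 5 * m ≤ n → ¬ (Ty n (m / 5) ↔ Ty n m) → (Ty n (5 * m) ↔ Ty n m)

/-- **C5N**: `C5` for the types (from `CRD`, `TYC`, `R5`, `R7`, `C5`). -/
def C5N : Prop :=
  ∀ n m : ℕ, 0 < m → 35 ∣ m → 5 * m ≤ n → ¬ (Ty n (m / 35) ↔ Ty n (m / 7)) →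
    ¬ (Ty n (m / 7) ↔ Ty n m) → (Ty n (5 * m) ↔ Ty n m)

open Classical in
/-- **MUL.**  An element of the extremal set has at most one proper multiple in it; from `UNQ`, `C3N`,
`C5N`.
Proof.  Let `x = 2^a 3^b m`, `c = cc n m ∈ {30, 35, 36}`, `kx ≤ n`.  In both cases of `El`
`216x > cn ≥ 30n`, so `n < (36/5) x` and `k ≤ 7`.  By `UNQ` the representation of `kx` is
`(a+1,b,m)`, `(a,b+1,m)`, `(a+2,b,m)`, `(a,b,5m)`, `(a+1,b+1,m)`, `(a,b,7m)` for `k = 2,3,4,5,6,7`, so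
`InA n (kx)` gives `El n` of that triple (`(5m,6) = (7m,6) = 1`).
*Same parity* (`Even a ↔ ¬Ty n m`; `144x > cn`, `36x ≤ cn`).  `k = 2`: the triple has opposite parity,
needs `72·2x ≤ cn`, i.e. `144x ≤ cn`: no.  `k = 4`: same parity, `36·4x ≤ cn`: no.  `k = 6`: opposite
parity, `72·6x ≤ cn`: no.  `k = 5`: any parity, `36·5x ≤ c'n ≤ 36n`, so `5x ≤ n`, but
`144x > 30n` gives `5x > (25/24) n`: no.  `k = 7`: the same.  So `k = 3`.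
*Opposite parity* (`216x > cn`, `72x ≤ cn`).  `k = 3`: opposite parity, `72·3x ≤ cn`: no.  `k = 4`:
opposite parity, `288x ≤ cn`: no.  `k = 6`: same parity, `216x ≤ cn`: no.
`k = 5`: class `5m`, `5m ≤ n`, `c' = cc n (5m)`.  If `Ty n (5m) ↔ Ty n m`: `5x` has opposite parity,
`360x ≤ c'n ≤ 36n`, `x ≤ n/10`; but `216x > 30n`: no.  If the types differ: `5 ∣ 5m`, `5m/5 = m`, so
`c' = 30`, and `5x` has the same parity: `180x ≤ 30n`, i.e. `216x ≤ 36n`; so `c < 36`.  If `c = 30`: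
`5 ∣ m` and the types of `m/5`, `m` differ, `C3N` says `Ty n (5m) ↔ Ty n m`: contradiction; if `c = 35`:
`C5N` gives the same contradiction.
`k = 7`: class `7m`, `7x ≤ n`, `216x > cn`: `216x ≤ (216/7) n < 35n`, so `c = 30`: `5 ∣ m` and the types
of `m/5` and `m` differ.  `c' = cc n (7m)`.  If `Ty n (7m) ↔ Ty n m`: opposite parity,
`72·7x ≤ 36n`, `x ≤ n/14`: no.  Otherwise `35 ∣ 7m`, `7m/35 = m/5`, `7m/7 = m`, so the second `if` in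
`cc n (7m)` applies unless the first does: `c' ≤ 35`; same parity: `36·7x ≤ 35n`, i.e.
`216x ≤ 30n`: contradiction with `216x > 30n`.
So `k = 2`. -/
def MUL : Prop :=
  ∀ n a b m k : ℕ, Nat.Coprime m 6 → El n a b m → 2 ≤ k → k * (2 ^ a * 3 ^ b * m) ≤ n →
    InA n (k * (2 ^ a * 3 ^ b * m)) → k = (if (Even a ↔ ¬ Ty n m) then 3 else 2)

/-- **ADM**, from `MUL`: if `a ∣ b`, `a ∣ d` in `Aset n`, `b = ka`, `d = k'a`, `k, k' ≥ 2` (all elements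
are `≥ 1`, `a ≠ b`, `a ≠ d`), then `k = k'` by `MUL`, so `b = d`. -/
def ADM : Prop := ∀ n : ℕ, Adm (Aset n)

open Classical in
/-- **CARD**, from `CLS`, `UNQ`, `CE`, `CO`.
Proof.  By `CLS` the left side is the sum over `m ∈ Cop n` of the number of pairs `u` with
`2^a 3^b m ∈ Aset n`; by `UNQ` this is `El n a b m` (with `1 ≤ 2^a3^bm ≤ n`, which follows from `El`:
`36x ≤ cn ≤ 36n`).  With `N = cc n m · n`, `M = 36 m` this is the set `SE N M` (type `e`) or `SO N M`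
(type `o`) up to the harmless bounds `a, b ≤ n` resp. `≤ N` (`2^a 3^b m ≤ n`, and `n ≤ N` as
`cc ≥ 30`; so both filters select the same pairs). -/
def CARD : Prop :=
  ∀ n : ℕ, (Aset n).card = ∑ m ∈ Cop n,
    (if Ty n m then H (cc n m * n / (36 * m) / 2) else H (cc n m * n / (36 * m)) - 1)

/-- **LOW**, from `CARD`, `VAL`.
Proof.  `|Aset n| = ∑_{m ∈ Cop n} (g(n/m) - [5 ∣ m ∧ κ(n/(m/5))])`; all brackets are at most `g`
(`g ≥ 1` for `n/m ≥ 1`), so this is `∑ g(n/m) - #{m ∈ Cop n : 5 ∣ m, κ(n/(m/5)) = 1}`.  The map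
`m' ↦ 5m'` is a bijection from `{m' ∈ Cop n : κ(n/m') = 1}` (there `n/m' ≥ 16`, so `5m' ≤ n`) to that
set.  So the sum is `F n`. -/
def LOW : Prop := ∀ n : ℕ, (Aset n).card = F n

/-- **LOW5.**  The model: an admissible set of size `F5 n`, from `UNQ`, `CLS`, `CE`, `CO`, `GS2`, `CRD`.
Proof.  `A = {x ∈ [1,n] : InA5 n x}`.  *Size*: as in `CARD` (level `z = n/m`, `N = n`, `M = m`) the
class of `m` contributes `H(n/m/2)` if `Ty5 n m` and `H(n/m) - 1` otherwise; by `GS2`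
(`Chi (n/m)` iff `2p ≤ n ∧ 2q ≤ n`: in `[2·4^i,4·4^i)` one has `i = j`, in `[2·3^c,3·3^c)` `c = b`) this
is `g(n/m)` in both cases.  *Admissible*: let `x = 2^a3^bm ∈ A`, `kx ∈ A`, `k ≥ 2`, `k ∈ D`; `x > n/6`, so
`k ≤ 5`, and `k ≠ 5` since `5 ∉ D`.  Same parity (`4x > n`): `k = 2` has opposite parity, needs
`4x ≤ n`: no; `k = 4` no; so `k = 3`.  Opposite parity (`6x > n`): `k = 3` has opposite parity, needs
`6x ≤ n`: no; `k = 4`: opposite parity, `8x ≤ n`: no; so `k = 2`.  In both cases `k` is determined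
by `x`, so two such multiples coincide. -/
def LOW5 : Prop :=
  ∀ (D : Set ℕ) (n : ℕ), 5 ∉ D → ∃ A : Finset ℕ, A ⊆ Finset.Icc 1 n ∧ AdmD D A ∧ A.card = F5 n

end Pool.Agent.Helper96.VF
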