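import Pool.Agent.Helper27.VF.Goals

set_option autoImplicit false

namespace Pool.Agent.Helper96.VF

open Pool.Agent.Helper27.VF

universe u

open Classical in
/-- The label of an element of `A`. -/
noncomputable def draLam (A : Type u) {W : Type u} [Group A] [MulAction A W] (G : SimpleGraph W)
    (p : Ultrafilter W) (k : ℕ)
    (hex : ∀ g : A, g ∉ BB A G p k → ∃ d ∈ DD A G p k, Inn p g d.2) (g : A) :
    A ⊕ (Set W × Set W) :=
  if h : g ∈ BB A G p k then Sum.inl g else Sum.inr (hex g h).choose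

theorem draPkt (hDer : DerStmt.{u}) (hPth : PthStmt.{u}) (hOra : OraStmt.{u})
    (hOrb : OrbStmt.{u}) (hOrc : OrcStmt.{u}) (hFrd : FrdStmt.{u}) : DraStmt.{u} := by
  intro A W _ _ G G₀ w p hS k hk htf M _ _ f hf
  obtain ⟨-, hex, -, hinv⟩ := hOrb A W G G₀ w p hS k hk
  have huniq := (hOra A W G G₀ w p hS k hk).2
  have hfree := (hFrd A W G G₀ w p hS k hk htf).2
  have horc := hOrc A W G G₀ w p hS k hk
  have hpth := hPth A W G G₀ w p hS k hk
  set lam : A → A ⊕ (Set W × Set W) := draLam A G p k hex with hlam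
  have lin : ∀ g : A, g ∈ BB A G p k → lam g = Sum.inl g := by
    intro g hg
    rw [hlam]
    unfold draLam
    rw [dif_pos hg]
  have lout : ∀ g : A, g ∉ BB A G p k → ∃ d ∈ DD A G p k, Inn p g d.2 ∧ lam g = Sum.inr d := by
    intro g hg
    refine ⟨(hex g hg).choose, (hex g hg).choose_spec.1, (hex g hg).choose_spec.2, ?_⟩
    rw [hlam]
    unfold draLam
    rw [dif_neg hg]
  have leq : ∀ g : A, g ∉ BB A G p k → ∀ d ∈ DD A G p k, Inn p g d.2 → lam g = Sum.inr d := by
    intro g hg d hd hgd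
    obtain ⟨e, he, hge, h⟩ := lout g hg
    rw [h]
    by_contra hne
    exact huniq e he d hd (fun h => hne (by rw [h])) g ⟨hge, hgd⟩
  have hnm : ∀ b ∈ BB A G p k, ∀ g : A, g ∉ BB A G p k → b * g ∉ BB A G p k := by
    intro b hb g hg h
    exact hg ((Subgroup.mul_mem_cancel_left _ hb).1 h)
  have hnm' : ∀ b ∈ BB A G p k, ∀ g : A, g ∉ BB A G p k → g * b ∉ BB A G p k := by
    intro b hb g hg h
    exact hg ((Subgroup.mul_mem_cancel_right _ hb).1 h)
  have htr : ∀ b ∈ BB A G p k, ∀ g : A, g ∉ BB A G p k → ∀ d ∈ DD A G p k, Inn p g d.2 →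
      lam (b * g) = Sum.inr (tr b d) := by
    intro b hb g hg d hd hgd
    refine leq _ (hnm b hb g hg) _ (hinv b hb d hd) ?_
    rw [inn_tr_snd, inv_mul_cancel_left]
    exact hgd
  refine hDer A (BB A G p k) (A ⊕ (Set W × Set W)) lam ?_ ?_ ?_ ?_ M f hf
  · intro b hb g g' h
    by_cases hg : g ∈ BB A G p k
    · rw [lin g hg] at h
      by_cases hg' : g' ∈ BB A G p k
      · rw [lin g' hg'] at h
        rw [Sum.inl.inj h]
      · obtain ⟨d, -, -, h'⟩ := lout g' hg'
        rw [h'] at h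
        cases h
    · obtain ⟨d, hd, hgd, h1⟩ := lout g hg
      by_cases hg' : g' ∈ BB A G p k
      · rw [h1, lin g' hg'] at h
        cases h
      · obtain ⟨e, he, hge, h2⟩ := lout g' hg'
        rw [h1, h2] at h
        have hde : d = e := Sum.inr.inj h
        subst hde
        rw [htr b hb g hg d hd hgd, htr b hb g' hg' d hd hge]
  · intro b hb g h
    by_cases hg : g ∈ BB A G p k
    · rw [lin g hg, lin _ (Subgroup.mul_mem _ hb hg)] at h
      exact mul_eq_right.1 (Sum.inl.inj h)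
    · obtain ⟨d, hd, hgd, h1⟩ := lout g hg
      rw [htr b hb g hg d hd hgd, h1] at h
      exact hfree b d hd (Sum.inr.inj h)
  · intro x y
    have hfin := hpth (y • w) (x • w)
    have hsub : {q : A ⧸ BB A G p k | ∃ g : A, (g : A ⧸ BB A G p k) = q ∧
        lam (g⁻¹ * x) ≠ lam (g⁻¹ * y)} ⊆
        ({(x : A ⧸ BB A G p k), (y : A ⧸ BB A G p k)} : Set (A ⧸ BB A G p k)) ∪
        ⋃ c ∈ {c | c ∈ SS A G p k ∧ y • w ∉ c.2 ∧ x • w ∉ c.1},
          {q : A ⧸ BB A G p k | ∃ g : A, ∃ d ∈ DD A G p k, tr g d = c ∧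
            (g : A ⧸ BB A G p k) = q} := by
      rintro q ⟨g, rfl, hne⟩
      by_cases hx : g⁻¹ * x ∈ BB A G p k
      · left
        left
        exact QuotientGroup.eq.2 hx
      · by_cases hy : g⁻¹ * y ∈ BB A G p k
        · left
          right
          exact QuotientGroup.eq.2 hy
        · right
          obtain ⟨d, hd, hxd, h1⟩ := lout _ hx
          have hyd : ¬ Inn p (g⁻¹ * y) d.2 := by
            intro h
            exact hne (by rw [h1, leq _ hy d hd h])
          have hc : tr g d ∈ SS A G p k := SS.tr hS hd.1 g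
          have h2 : Inn p x (tr g d).2 := inn_tr_snd.2 hxd
          have h3 : ¬ Inn p y (tr g d).2 := fun h => hyd (inn_tr_snd.1 h)
          rw [Set.mem_iUnion₂]
          refine ⟨tr g d, ⟨hc, ?_, ?_⟩, g, d, hd, rfl, rfl⟩
          · intro h
            exact h3 (fact1' hS hc.1 h)
          · intro h
            exact (inn_snd hS hc.1).1 h2 (fact1 hS hc.1 h)
    refine Set.Finite.subset (Set.Finite.union (by simp) (Set.Finite.biUnion hfin ?_)) hsub
    intro c _
    refine Set.Subsingleton.finite ?_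
    rintro q ⟨g, d, hd, hgd, rfl⟩ q' ⟨g', d', hd', hgd', rfl⟩
    rw [QuotientGroup.eq]
    have h1 : tr (g⁻¹ * g') d' = d := by
      rw [← tr_tr, hgd', ← hgd, tr_tr, inv_mul_cancel, tr_one]
    refine horc (g⁻¹ * g') d' hd' ?_
    rw [h1]
    exact hd
  · intro b hb g hg
    have hg' : g⁻¹ ∉ BB A G p k := fun h => hg (by simpa using Subgroup.inv_mem _ h)
    obtain ⟨d, hd, hgd, h1⟩ := lout _ hg'
    rw [h1]
    refine leq _ (hnm' b hb _ hg') d hd ?_
    rw [inn_snd hS hd.1.1] at hgd ⊢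
    intro h
    exact hgd ((hb g⁻¹ d hd.1).1 h)

end Pool.Agent.Helper96.VF
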