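import Mathlib

/-!
# Project VF (MP_6829b3_nt): sets in which no element divides two others, exact formula

Definitions.  Everything is over `ℕ`; `n / m` is the floor of the quotient.
-/

set_option autoImplicit false

namespace Pool.Agent.Helper96.VF

/-- Admissible: no element of `A` divides two other distinct elements of `A`. -/
def Adm (A : Finset ℕ) : Prop :=
  ∀ a ∈ A, ∀ b ∈ A, ∀ d ∈ A, a ≠ b → a ≠ d → b ≠ d → ¬ (a ∣ b ∧ a ∣ d)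

/-- `H(y)`: the number of powers `3^b ≤ y` plus the number of powers `4^j ≤ y` (`b, j ≥ 0`). -/
def H (y : ℕ) : ℕ := if y = 0 then 0 else Nat.log 3 y + Nat.log 4 y + 2

/-- `g(y) = max (H(y) - 1, H(y/2))`. -/
def g (y : ℕ) : ℕ := max (H y - 1) (H (y / 2))

/-- `κ(y) = 1`: `y` lies in `[16·4^j, 20·4^j) ∩ [10·3^b, 12·3^b)` for some `j, b`. -/
def Kap (y : ℕ) : Prop :=
  (∃ j : ℕ, 16 * 4 ^ j ≤ y ∧ y < 20 * 4 ^ j) ∧ (∃ b : ℕ, 10 * 3 ^ b ≤ y ∧ y < 12 * 3 ^ b)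

/-- `χ(y) = 1`: `y` lies in `[2·4^j, 4·4^j) ∩ [2·3^b, 3·3^b)` for some `j, b`. -/
def Chi (y : ℕ) : Prop :=
  (∃ j : ℕ, 2 * 4 ^ j ≤ y ∧ y < 4 * 4 ^ j) ∧ (∃ b : ℕ, 2 * 3 ^ b ≤ y ∧ y < 3 * 3 ^ b)

/-- The integers in `{1,…,n}` coprime to `6`. -/
def Cop (n : ℕ) : Finset ℕ := (Finset.Icc 1 n).filter (fun m => Nat.Coprime m 6)

open Classical in
/-- The formula: `F(n) = ∑_{m ≤ n, (m,6)=1} (g(n/m) - κ(n/m))`. -/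
noncomputable def F (n : ℕ) : ℕ := ∑ m ∈ Cop n, (g (n / m) - if Kap (n / m) then 1 else 0)

/-- The formula of the model without quotient `5`: `F5(n) = ∑_{m ≤ n, (m,6)=1} g(n/m)`. -/
def F5 (n : ℕ) : ℕ := ∑ m ∈ Cop n, g (n / m)

/-! ### upper bound -/

/-- No element of `S` lies below two others (product order on `ℕ × ℕ`). -/
def VFree (S : Finset (ℕ × ℕ)) : Prop :=
  ∀ u ∈ S, ∀ v ∈ S, ∀ w ∈ S, u ≠ v → u ≠ w → v ≠ w → ¬ (u ≤ v ∧ u ≤ w)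

/-- `S` consists of pairs `(a,b)` with `2^a 3^b ≤ y`. -/
def InR (y : ℕ) (S : Finset (ℕ × ℕ)) : Prop := ∀ u ∈ S, 2 ^ u.1 * 3 ^ u.2 ≤ y

/-! ### lower bound: types of the classes `{2^a 3^b m}` (`(m,6)=1`), `y = n/m` (a real number) -/

/-- `y ∈ [2·4^j, 4·4^j)` for some `j`. -/
def Od (n m : ℕ) : Prop := ∃ j : ℕ, 2 * 4 ^ j * m ≤ n ∧ n < 4 * 4 ^ j * m

/-- `κ(5y) = 1`. -/
def Ka (n m : ℕ) : Prop :=
  (∃ j : ℕ, 16 * 4 ^ j * m ≤ 5 * n ∧ 5 * n < 20 * 4 ^ j * m) ∧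
    (∃ b : ℕ, 2 * 3 ^ b * m ≤ n ∧ 5 * n < 12 * 3 ^ b * m)

/-- the exceptional set `[2·4^j, (5/2)·4^j) ∩ [(5/3)·3^b, 2·3^b)`. -/
def Ex (n m : ℕ) : Prop :=
  (∃ j : ℕ, 2 * 4 ^ j * m ≤ n ∧ 2 * n < 5 * 4 ^ j * m) ∧
    (∃ b : ℕ, 5 * 3 ^ b * m ≤ 3 * n ∧ n < 2 * 3 ^ b * m)

/-- the class of `m` has type `o` (for odd); otherwise it has type `e`. -/
def Ty (n m : ℕ) : Prop := Od n m ∧ ¬ (5 ∣ m ∧ Ka n m) ∧ ¬ Ex n m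

open Classical in
/-- `36 c(m)`: the level of the class of `m` is `z = c(m) n / m` with `c = 5/6`, `35/36` or `1`. -/
noncomputable def cc (n m : ℕ) : ℕ :=
  if 5 ∣ m ∧ ¬ (Ty n (m / 5) ↔ Ty n m) then 30
  else if 35 ∣ m ∧ ¬ (Ty n (m / 35) ↔ Ty n (m / 7)) ∧ ¬ (Ty n (m / 7) ↔ Ty n m) then 35 else 36

/-- `x = 2^a 3^b m` belongs to the extremal set: same parity (`a` even in type `e`, odd in type `o`)
and `c n / 4 < x ≤ c n`, or opposite parity and `c n / 6 < x ≤ c n / 2`. -/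
def El (n a b m : ℕ) : Prop :=
  ((Even a ↔ ¬ Ty n m) ∧ cc n m * n < 144 * (2 ^ a * 3 ^ b * m) ∧
      36 * (2 ^ a * 3 ^ b * m) ≤ cc n m * n) ∨
  (¬ (Even a ↔ ¬ Ty n m) ∧ cc n m * n < 216 * (2 ^ a * 3 ^ b * m) ∧
      72 * (2 ^ a * 3 ^ b * m) ≤ cc n m * n)

/-- membership in the extremal set. -/
def InA (n x : ℕ) : Prop := ∃ a b m : ℕ, Nat.Coprime m 6 ∧ x = 2 ^ a * 3 ^ b * m ∧ El n a b m

open Classical in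
/-- The extremal set. -/
noncomputable def Aset (n : ℕ) : Finset ℕ := (Finset.Icc 1 n).filter (fun x => InA n x)

/-- coordinates: `p = 4^j m`, `q = 3^b m`, `p ≤ n < 4p`, `q ≤ n < 3q` (`u = n/p`, `v = n/q`). -/
def Co (n m p q : ℕ) : Prop :=
  (∃ j : ℕ, p = 4 ^ j * m) ∧ (∃ b : ℕ, q = 3 ^ b * m) ∧ p ≤ n ∧ n < 4 * p ∧ q ≤ n ∧ n < 3 * q

/-- the type in coordinates; `f` stands for `5 ∣ m`. -/
def TC (f : Prop) (n p q : ℕ) : Prop :=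
  2 * p ≤ n ∧ ¬ (f ∧ 16 * p ≤ 5 * n ∧ 2 * q ≤ n ∧ 5 * n < 12 * q) ∧
    ¬ (2 * n < 5 * p ∧ 5 * q ≤ 3 * n ∧ n < 2 * q)

open Classical in
/-- pairs `(a,b)` of a class of type `e` at level `N/M`. -/
noncomputable def SE (N M : ℕ) : Finset (ℕ × ℕ) :=
  ((Finset.range (N + 1)) ×ˢ (Finset.range (N + 1))).filter fun u =>
    (Even u.1 ∧ N < 4 * (M * (2 ^ u.1 * 3 ^ u.2)) ∧ M * (2 ^ u.1 * 3 ^ u.2) ≤ N) ∨
    (¬ Even u.1 ∧ N < 6 * (M * (2 ^ u.1 * 3 ^ u.2)) ∧ 2 * (M * (2 ^ u.1 * 3 ^ u.2)) ≤ N)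

open Classical in
/-- pairs `(a,b)` of a class of type `o` at level `N/M`. -/
noncomputable def SO (N M : ℕ) : Finset (ℕ × ℕ) :=
  ((Finset.range (N + 1)) ×ˢ (Finset.range (N + 1))).filter fun u =>
    (¬ Even u.1 ∧ N < 4 * (M * (2 ^ u.1 * 3 ^ u.2)) ∧ M * (2 ^ u.1 * 3 ^ u.2) ≤ N) ∨
    (Even u.1 ∧ N < 6 * (M * (2 ^ u.1 * 3 ^ u.2)) ∧ 2 * (M * (2 ^ u.1 * 3 ^ u.2)) ≤ N)

/-! ### the model without quotient 5 -/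

/-- no `a ∈ A` has two other elements `b, d ∈ A` with `b/a, d/a ∈ D`. -/
def AdmD (D : Set ℕ) (A : Finset ℕ) : Prop :=
  ∀ a ∈ A, ∀ b ∈ A, ∀ d ∈ A, a ≠ b → a ≠ d → b ≠ d →
    ¬ ((∃ k ∈ D, b = k * a) ∧ (∃ k ∈ D, d = k * a))

/-- type `o` in the model: `y ∈ [2·4^j, 4·4^j) ∩ [2·3^b, 3·3^b)`. -/
def Ty5 (n m : ℕ) : Prop := Chi (n / m)

/-- membership conditions in the model. -/
def El5 (n a b m : ℕ) : Prop :=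
  ((Even a ↔ ¬ Ty5 n m) ∧ n < 4 * (2 ^ a * 3 ^ b * m) ∧ 2 ^ a * 3 ^ b * m ≤ n) ∨
  (¬ (Even a ↔ ¬ Ty5 n m) ∧ n < 6 * (2 ^ a * 3 ^ b * m) ∧ 2 * (2 ^ a * 3 ^ b * m) ≤ n)

/-- membership in the extremal set of the model. -/
def InA5 (n x : ℕ) : Prop := ∃ a b m : ℕ, Nat.Coprime m 6 ∧ x = 2 ^ a * 3 ^ b * m ∧ El5 n a b m

/-! ### the limit -/

/-- `μ([a,b) ∩ [c,d))`, `μ = dy/y²`: the number `max(0, 1/max(a,c) - 1/min(b,d))`. -/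
noncomputable def mu (a b c d : ℝ) : ℝ := max 0 (1 / max a c - 1 / min b d)

/-- term of the series of `λ`: `μ([2·4^j,4·4^j) ∩ [2·3^b,3·3^b)) - μ([16·4^j,20·4^j) ∩ [10·3^b,12·3^b))`. -/
noncomputable def trm (x : ℕ × ℕ) : ℝ :=
  mu (2 * 4 ^ x.1) (4 * 4 ^ x.1) (2 * 3 ^ x.2) (3 * 3 ^ x.2) -
    mu (16 * 4 ^ x.1) (20 * 4 ^ x.1) (10 * 3 ^ x.2) (12 * 3 ^ x.2)

/-- `λ = 11/18 + (1/3) ∑_{j,b ≥ 0} trm(j,b)`. -/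
noncomputable def lam : ℝ := 11 / 18 + (∑' x : ℕ × ℕ, trm x) / 3

/-- `λ₅ = 11/18 + (1/3) ∑_{j,b ≥ 0} μ([2·4^j,4·4^j) ∩ [2·3^b,3·3^b))`. -/
noncomputable def lam5 : ℝ :=
  11 / 18 + (∑' x : ℕ × ℕ, mu (2 * 4 ^ x.1) (4 * 4 ^ x.1) (2 * 3 ^ x.2) (3 * 3 ^ x.2)) / 3

/-- `k_b = ⌊b log_2 3⌋`, i.e. `2^(k_b) ≤ 3^b < 2^(k_b+1)`. -/
def kk (b : ℕ) : ℕ := Nat.log 2 (3 ^ b)

/-- `V = ∑_{b ≥ 1} (-1)^(k_b) (2^(1-k_b) - 3^(1-b))`. -/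
noncomputable def VV : ℝ :=
  ∑' b : ℕ, (-1 : ℝ) ^ kk (b + 1) * (2 / 2 ^ kk (b + 1) - 3 / 3 ^ (b + 1))

open Classical in
/-- `w_b = ∑_j μ([16·4^j,20·4^j) ∩ [10·3^b,12·3^b))` in closed form (`u = 3^b / 2^(k_b) ∈ [1,2)`; it is
`0` unless `k_b` is even and `u > 4/3`; the three pieces are `u ≥ 5/3`, `8/5 < u < 5/3`,
`4/3 < u ≤ 8/5`). -/
noncomputable def wb (b : ℕ) : ℝ :=
  if Even (kk b) then
    if 5 * 2 ^ kk b ≤ 3 * 3 ^ b then 1 / (10 * 3 ^ b) - 1 / (20 * 2 ^ kk b)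
    else if 8 * 2 ^ kk b < 5 * 3 ^ b then 1 / (60 * 3 ^ b)
    else if 4 * 2 ^ kk b < 3 * 3 ^ b then 1 / (16 * 2 ^ kk b) - 1 / (12 * 3 ^ b)
    else 0
  else 0

/-- `W = ∑_{b ≥ 1} w_b`. -/
noncomputable def WW : ℝ := ∑' b : ℕ, wb (b + 1)

/-- **SER** (both series forms; checked numerically to 10^-19): `λ = 49/72 - V/12 - W/3`,
`λ₅ = 49/72 - V/12`, and the series of `V`, `W` converge. -/
def SER : Prop :=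
  lam = 49 / 72 - VV / 12 - WW / 3 ∧ lam5 = 49 / 72 - VV / 12 ∧
    Summable (fun b : ℕ => (-1 : ℝ) ^ kk (b + 1) * (2 / 2 ^ kk (b + 1) - 3 / 3 ^ (b + 1))) ∧
    Summable (fun b : ℕ => wb (b + 1))

end Pool.Agent.Helper96.VF
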