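import Pool.Agent.Helper96.VF.Fin2
import Pool.Agent.Helper86.VF.TILE
import Pool.Agent.Helper86.VF.R5
import Pool.Agent.Helper83.VF.U1A
import Pool.Agent.Helper24.VF.U1B
import Pool.Agent.Helper28.VF.GF
import Pool.Agent.Helper87.VF.U2E
import Pool.Agent.Helper57.VF.UNQ
import Pool.Agent.Helper27.VF.CLS
import Pool.Agent.Helper70.VF.CE
import Pool.Agent.Helper88.VF.TYC
import Pool.Agent.Helper88.VF.DBL
import Pool.Agent.Helper88.VF.NUM
import Pool.Agent.Helper49.VF.C3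
import Pool.Agent.Helper22.VF.S1A
import Pool.Agent.Helper22.VF.LGS
import Pool.Agent.Helper36.VF.S1B
import Pool.Agent.Helper31.VF.HC
import Pool.Agent.Helper31.VF.DBLA
import Pool.Agent.Helper53.VF.GS2
import Pool.Agent.Helper81.VF.VAL
import Pool.Agent.Helper16.VF.C3N
import Pool.Agent.Helper16.VF.ASM
import Pool.Agent.Helper54.VF.MUL
import Pool.Agent.Helper50.VF.CARD
import Pool.Agent.Helper62.VF.LOW
import Pool.Agent.Helper62.VF.SERB
import Pool.Agent.Helper89.VF.CNT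
import Pool.Agent.Helper15.VF.DBLB
import Pool.Agent.Helper37.VF.GCHI
import Pool.Agent.Helper44.VF.TND
import Pool.Agent.Helper97.VF.SERA

/-!
# Project VF: putting the goals together
-/

set_option autoImplicit false

namespace Pool.Agent.Helper96.VF

theorem aTILE : TILE := Pool.Agent.Helper86.VF.gTILE
theorem aUNQ : UNQ := Pool.Agent.Helper57.VF.gUNQ
theorem aCLS : CLS := Pool.Agent.Helper27.VF.gCLS aUNQ
theorem aGF : GF := Pool.Agent.Helper28.VF.gGF
theorem aU1 (hROW : ROW) : U1 :=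
  Pool.Agent.Helper28.VF.gU1 (Pool.Agent.Helper83.VF.gU1A hROW aTILE)
    (Pool.Agent.Helper24.VF.gU1B hROW aTILE) aGF
theorem aU2E (hROW : ROW) : U2E := Pool.Agent.Helper87.VF.gU2E hROW aTILE aGF
theorem aCE : CE := Pool.Agent.Helper70.VF.gCE
theorem aCRD : CRD := Pool.Agent.Helper88.VF.gCRD
theorem aTYC : TYC := Pool.Agent.Helper88.VF.gTYC
theorem aR5 : R5 := Pool.Agent.Helper86.VF.gR5
theorem aR7 : R7 := Pool.Agent.Helper86.VF.gR7
theorem aVAL : VAL :=
  Pool.Agent.Helper81.VF.gVAL aCRD aTYC aR5 aR7 Pool.Agent.Helper22.VF.gS1A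
    Pool.Agent.Helper36.VF.gS1B Pool.Agent.Helper31.VF.gHC Pool.Agent.Helper53.VF.gGS2
theorem aC3N : C3N := Pool.Agent.Helper16.VF.gC3N aCRD aTYC aR5 Pool.Agent.Helper49.VF.gC3
theorem aC5N (hC5 : C5) : C5N := Pool.Agent.Helper16.VF.gC5N aCRD aTYC aR5 aR7 hC5
theorem aADM (hC5 : C5) : ADM :=
  Pool.Agent.Helper54.VF.gADM (Pool.Agent.Helper54.VF.gMUL aUNQ aC3N (aC5N hC5))
theorem aLOW (hCO : CO) : LOW :=
  Pool.Agent.Helper62.VF.gLOW (Pool.Agent.Helper50.VF.gCARD aCLS aUNQ aCE hCO) aVAL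
theorem aCNT : CNT := Pool.Agent.Helper89.VF.gCNT
theorem aDBLA : DBLA := Pool.Agent.Helper31.VF.gDBLA
theorem aDBL : DBL := Pool.Agent.Helper88.VF.gDBL aCNT aDBLA Pool.Agent.Helper15.VF.gDBLB
theorem aASM : ASM :=
  Pool.Agent.Helper16.VF.gASM aCNT (Pool.Agent.Helper22.VF.gLGS aCNT) aDBL
    Pool.Agent.Helper96.VF.gGCHI
theorem aTND : TND := Pool.Agent.Helper96.VF.gTND
theorem aSERA : SERA := Pool.Agent.Helper97.VF.gSERA
theorem aSERB : SERB := Pool.Agent.Helper62.VF.gSERB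

end Pool.Agent.Helper96.VF
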