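import Pool.Agent.Helper96.VF.Goals

/-!
# Project VF (MP_6829b3_nt): `C5`

With `u = n/p`: if the type at `m` is `e` the hypotheses force `5/4 ≤ u < 16/7`, so `n/p₂ = 4u/5 < 2`;
if it is `o` they force `u ≥ 128/35`, so `5/2 < n/p₂ = 4u/5 < 16/5`.
-/

set_option autoImplicit false

namespace Pool.Agent.Helper96.VF

theorem gC5 : C5 := by
  intro f n p₃ q₃ p₇ q₇ p q p₂ q₂ h3 h7 h h2 hL5 hL7 hL5' hne1 hne2
  obtain ⟨a1, a2, a3, a4⟩ := h3
  obtain ⟨b1, b2, b3, b4⟩ := h7
  obtain ⟨c1, c2, c3, c4⟩ := h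
  obtain ⟨d1, d2, d3, d4⟩ := h2
  obtain ⟨l1, l2⟩ := hL5
  obtain ⟨l3, l4⟩ := hL7
  obtain ⟨l5, l6⟩ := hL5'
  by_cases hT : TC True n p q
  · have hT7 : ¬ TC True n p₇ q₇ := fun hc => hne2 (iff_of_true hc hT)
    have hT3 : TC f n p₃ q₃ := by
      by_contra hc
      exact hne1 (iff_of_false hc hT7)
    obtain ⟨s1, -, -⟩ := id hT
    obtain ⟨t1, -, -⟩ := hT3
    -- `u ≥ 16/7`
    have e1 : 7 * p₇ = 16 * p := by
      rcases l3 with l3 | l3
      · exfalso
        rcases l1 with l1 | l1 <;> omega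
      · exact l3
    have e2 : 5 * p₃ = 4 * p₇ := by
      rcases l1 with l1 | l1
      · exact l1
      · exfalso; omega
    have e3 : 5 * p = 4 * p₂ := by
      rcases l5 with l5 | l5
      · exact l5
      · exfalso; omega
    refine iff_of_true ⟨by omega, ?_, ?_⟩ hT
    · rintro ⟨-, x1, -, -⟩
      omega
    · rintro ⟨x1, -, -⟩
      omega
  · have hT7 : TC True n p₇ q₇ := by
      by_contra hc
      exact hne2 (iff_of_false hc hT)
    have hT3 : ¬ TC f n p₃ q₃ := fun hc => hne1 (iff_of_true hc hT7)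
    obtain ⟨t1, -, -⟩ := hT7
    have e1 : 7 * p₇ = 4 * p := by
      rcases l3 with l3 | l3
      · exact l3
      · exfalso; omega
    have e2 : 5 * p ≤ 4 * n := by
      by_contra hc
      have e3 : 5 * p₃ = 4 * p₇ := by
        rcases l1 with l1 | l1
        · exact l1
        · exfalso; omega
      refine hT3 ⟨by omega, ?_, ?_⟩
      · rintro ⟨-, x1, -, -⟩
        omega
      · rintro ⟨x1, -, -⟩
        omega
    have e4 : 5 * p = 4 * p₂ := by
      rcases l5 with l5 | l5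
      · exact l5
      · exfalso; omega
    refine iff_of_false ?_ hT
    rintro ⟨x1, -, -⟩
    omega

end Pool.Agent.Helper96.VF
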