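import Pool.Agent.Helper96.VF.All
import Pool.Agent.Helper12.VF.ROW
import Pool.Agent.Helper84.VF.U2O
import Pool.Agent.Helper64.VF.UP
import Pool.Agent.Helper96.VF.COa
import Pool.Agent.Helper96.VF.C5a
import Pool.Agent.Helper33.IR.Lam

/-!
# Project VF: all goals proved
-/

set_option autoImplicit false

open Filter Topology

namespace Pool.Agent.Helper96.VF

theorem aROW : ROW := Pool.Agent.Helper12.VF.gROW
theorem aUP : UP :=
  Pool.Agent.Helper64.VF.gUP (aU1 aROW) (aU2E aROW)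
    (Pool.Agent.Helper84.VF.gU2O aROW aTILE aGF) aCLS aUNQ
theorem aADM' : ADM := aADM gC5
theorem aLOW' : LOW := aLOW gCO
theorem aIrr : Irrational lam := Pool.Agent.Helper33.IR.irrLam

theorem summable_trm : Summable trm := by
  have h1 := (aDBLA 2 4 2 3 ⟨by norm_num, by norm_num, by norm_num, by norm_num, by norm_num,
    by norm_num, by norm_num⟩).1
  have h2 := (aDBLA 16 20 10 12 ⟨by norm_num, by norm_num, by norm_num, by norm_num, by norm_num,
    by norm_num, by norm_num⟩).1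
  refine (h1.sub h2).congr fun x => ?_
  simp only [mm, trm]
  norm_num

/-- S17277, no hypotheses. -/
theorem frozenFinal :
    ∃ c : ℝ, Irrational c ∧ ∃ f : ℕ → ℕ,
      (∀ n : ℕ, IsGreatest
        {k : ℕ | ∃ A : Finset ℕ, A ⊆ Finset.Icc 1 n ∧
          (∀ a ∈ A, ∀ b ∈ A, ∀ d ∈ A, a ≠ b → a ≠ d → b ≠ d → ¬ (a ∣ b ∧ a ∣ d)) ∧
          A.card = k} (f n)) ∧
      Tendsto (fun n : ℕ => (f n : ℝ) / (n : ℝ)) atTop (nhds c) :=
  ⟨lam, aIrr, F, isGreatest_F aUP aADM' aLOW', tendsto_F aASM aTND⟩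

end Pool.Agent.Helper96.VF
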