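import Pool.Agent.Helper96.VF.All2
import Pool.Agent.Helper50.VF.SERC

/-!
# Project VF: series form and numerical value of `λ`
-/

set_option autoImplicit false

namespace Pool.Agent.Helper96.VF

theorem aSER : SER := Pool.Agent.Helper50.VF.gSERC aSERA aSERB aDBLA
theorem aNUM : NUM := Pool.Agent.Helper88.VF.NUM.gNUM aSER

end Pool.Agent.Helper96.VF
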