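import Pool.Agent.Helper96.VF.Defs

/-!
# Project VF: packets (asymptotics and series)

`F(n) = ∑_{m ≤ n, (m,6)=1} (g(n/m) - κ(n/m)) = λ n + O(1 + log n)`, and the series of `λ`.
-/

set_option autoImplicit false

open Filter Topology

namespace Pool.Agent.Helper96.VF

/-- **CNT.**  Counting integers coprime to `6`.
Proof.  Let `x = n/a` (floor), `c(x) = |Cop x|`.  `x = 6k + r`, `0 ≤ r < 6`:
`c(x) = 2k + (0,1,1,1,1,2)_r` (e.g. `Nat.filter_coprime_Ico_eq_totient` /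
`Nat.count` periodicity, or induction `c(x+6) = c(x) + 2`), so
`c(x) - x/3 ∈ {0, 2/3, 1/3, 0, -1/3, 1/3}`.  And `0 ≤ n/(3a) - x/3 < 1/3`.  So
`-2/3 ≤ c(x) - n/(3a) ≤ 2/3`. -/
def CNT : Prop :=
  ∀ n a : ℕ, 1 ≤ a → |((Cop (n / a)).card : ℝ) - (n : ℝ) / (3 * a)| ≤ 1

/-- **LGS.**
Proof.  For `y ≥ 1`, `Nat.log q y + 1 = #{b ∈ range (n+1) : q^b ≤ y}` (`y ≤ n`); exchanging the sums,
the sum is `∑_{b ≤ n} #{m ∈ Cop n : q^b ≤ n/m} = ∑_{b ≤ n} |Cop (n / q^b)|`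
(`q^b ≤ n/m ↔ m ≤ n/q^b`; and `m ≤ n/q^b ≤ n`).  For `q^b ≤ n`, i.e. `b ≤ L = Nat.log q n`, the term
differs from `n/(3 q^b)` by at most `1` (`CNT`); for `q^b > n` it is `0`.  And
`∑_{b ≤ L} n/(3q^b) = (n/3)(q/(q-1))(1 - q^{-(L+1)})`, `n q^{-(L+1)} < 1`.  So the error is at most
`(L + 1) + (1/3) q/(q-1) ≤ L + 2`, and `L ≤ log n / log q`; as `log q ≥ log 2 > 1/2`, `C = 4`
works. -/
def LGS : Prop :=
  ∀ q : ℕ, 2 ≤ q → ∃ C : ℝ, ∀ n : ℕ, 1 ≤ n →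
    |(∑ m ∈ Cop n, ((Nat.log q (n / m) : ℝ) + 1)) - (n : ℝ) / 3 * (q / (q - 1))| ≤
      C * (1 + Real.log n)

/-- left end point of `[p·4^j, q·4^j) ∩ [r·3^b, s·3^b)`. -/
def al (p r : ℕ) (x : ℕ × ℕ) : ℕ := max (p * 4 ^ x.1) (r * 3 ^ x.2)

/-- right end point. -/
def be (q s : ℕ) (x : ℕ × ℕ) : ℕ := min (q * 4 ^ x.1) (s * 3 ^ x.2)

/-- hypotheses on the parameters. -/
def Par (p q r s : ℕ) : Prop :=
  0 < p ∧ p < q ∧ q ≤ 4 * p ∧ 0 < r ∧ r < s ∧ s ≤ 3 * r ∧ s * q ≤ 4 * (p * r)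

/-- the real measure of the `x`-th intersection. -/
noncomputable def mm (p q r s : ℕ) (x : ℕ × ℕ) : ℝ :=
  mu (p * 4 ^ x.1) (q * 4 ^ x.1) (r * 3 ^ x.2) (s * 3 ^ x.2)

/-- **DBLA.**
Proof.  Write `α = al p r x`, `β = be q s x`, and call `x = (j,b)` active if `α < β`; then
`mm x = 1/α - 1/β` if active and `0` otherwise.
(a) For each `b` at most one `j` is active: active implies `p·4^j < s·3^b` and `r·3^b < q·4^j`.  If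
`j < j'` were both active, `4p·4^j ≤ p·4^(j') < s·3^b`, so `4pr·4^j < s·r·3^b < s·q·4^j`, `4pr < sq`:
contradiction.
(b) active implies `α < s·3^b` (`p4^j < s3^b`, `r < s`), and `0 ≤ mm x ≤ 1/α ≤ 1/(r·3^b)`.
Summability: by (a), (b) every finite partial sum is `≤ ∑_b 1/(r 3^b) = 3/(2r)`
(`summable_of_sum_le`; group a finite set by `b`).
`P` = the active `x` with `α ≤ n`: finite, since `4^j, 3^b ≤ n` (`P ⊆ range (n+1) ×ˢ range (n+1)`); by (a)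
the projection to `b` is injective on `P`, and `3^b ≤ r3^b ≤ n`, so `|P| ≤ Nat.log 3 n + 1`.
Tail: the sum over `x ∉ P` only has contributions of active `x` with `α > n`, hence `s·3^b > n`
by (b); every finite partial sum is `≤ ∑_{b : s3^b > n} 1/(r3^b) ≤ (3/2)/(r 3^{b₀})` with
`s·3^{b₀} > n`, so `≤ 3s/(2rn)`. -/
def DBLA : Prop :=
  ∀ p q r s : ℕ, Par p q r s → Summable (mm p q r s) ∧ ∀ n : ℕ, 1 ≤ n →
    ∃ P : Finset (ℕ × ℕ), (∀ x, x ∈ P ↔ (al p r x < be q s x ∧ al p r x ≤ n)) ∧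
      P.card ≤ Nat.log 3 n + 1 ∧
      |(∑' x, mm p q r s x) - ∑ x ∈ P, (1 / (al p r x : ℝ) - 1 / (be q s x : ℝ))| ≤
        3 * s / (2 * r * n)

open Classical in
/-- **DBLB.**
Proof.  For `y ≥ 1`, `p4^j ≤ y < q4^j` and `r3^b ≤ y < s3^b` hold iff `α ≤ y < β` with
`α = al p r (j,b)`, `β = be q s (j,b)`; then `α < β`.  The pair `(j,b)` is unique: `j < j'` would give
`y < q4^j ≤ 4p4^j ≤ p4^(j') ≤ y`, and `b < b'` would give `y < s3^b ≤ 3r3^b ≤ r3^(b') ≤ y`.  With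
`y = n/m ≤ n` we get `α ≤ n`, so the filtered set is the disjoint union over `x ∈ P` of
`{m ∈ Cop n : al x ≤ n/m < be x}` (`Finset.card_biUnion`), which is `Cop (n/al x) \ Cop (n/be x)`
(`t ≤ n/m ↔ m ≤ n/t` for `m, t ≥ 1`), of size `|Cop (n/al x)| - |Cop (n/be x)|`
(`Cop (n/be x) ⊆ Cop (n/al x)`). -/
def DBLB : Prop :=
  ∀ (p q r s n : ℕ) (P : Finset (ℕ × ℕ)), Par p q r s → 1 ≤ n →
    (∀ x, x ∈ P ↔ (al p r x < be q s x ∧ al p r x ≤ n)) →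
    (((Cop n).filter (fun m => (∃ j : ℕ, p * 4 ^ j ≤ n / m ∧ n / m < q * 4 ^ j) ∧
      (∃ b : ℕ, r * 3 ^ b ≤ n / m ∧ n / m < s * 3 ^ b))).card : ℝ) =
      ∑ x ∈ P, (((Cop (n / al p r x)).card : ℝ) - ((Cop (n / be q s x)).card : ℝ))

open Classical in
/-- **DBL**, from `CNT`, `DBLA`, `DBLB`.
Proof.  With `P` from `DBLA`: the count differs from `∑_{x ∈ P} (n/3)(1/al - 1/be)` by at most `2|P|`
(`CNT` twice), which differs from `(n/3) ∑' mm` by at most `(n/3)·3s/(2rn) = s/(2r)`.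
`|P| ≤ Nat.log 3 n + 1 ≤ log n + 1` (`log 3 ≥ 1`).  So `C = 2 + s/(2r)` works. -/
def DBL : Prop :=
  ∀ p q r s : ℕ, Par p q r s → Summable (mm p q r s) ∧ ∃ C : ℝ, ∀ n : ℕ, 1 ≤ n →
    |(((Cop n).filter (fun m => (∃ j : ℕ, p * 4 ^ j ≤ n / m ∧ n / m < q * 4 ^ j) ∧
      (∃ b : ℕ, r * 3 ^ b ≤ n / m ∧ n / m < s * 3 ^ b))).card : ℝ) -
        (n : ℝ) / 3 * ∑' x, mm p q r s x| ≤ C * (1 + Real.log n)

open Classical in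
/-- **GCHI.**
Proof.  `j = Nat.log 4 y`, `b = Nat.log 3 y`, so `H y = b + j + 2`.  The number of `i` with
`2·4^i ≤ y` is `j + 1` if `2·4^j ≤ y` and `j` otherwise; the number of `c` with `2·3^c ≤ y` is `b + 1` if
`2·3^b ≤ y` and `b` otherwise; their sum is `H (y/2)`.  So `H(y/2) = H(y)` if both `2·4^j ≤ y` and
`2·3^b ≤ y` (this is `Chi y`: in `[2·4^i, 4·4^i)` one has `i = j`, in `[2·3^c,3·3^c)` `c = b`), and
`H(y/2) ≤ H(y) - 1` otherwise. -/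
def GCHI : Prop :=
  ∀ y : ℕ, 1 ≤ y → g y = Nat.log 3 y + Nat.log 4 y + 1 + (if Chi y then 1 else 0)

/-- **ASM**, from `CNT`, `LGS`, `DBL`, `GCHI`.
Proof.  For `m ∈ Cop n` let `y = n/m ≥ 1`; by `GCHI` (real numbers)
`g(y) = (Nat.log 3 y + 1) + (Nat.log 4 y + 1) - 1 + [Chi y]`, and `g(y) ≥ 1`, so
`g(y) - [Kap y]` (natural subtraction) is the real difference.  Sum over `Cop n`: `LGS` for `q = 3`
(main term `(n/3)(3/2)`), `q = 4` (`(n/3)(4/3)`), `CNT` with `a = 1` (`n/3`), `DBL` for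
`(p,q,r,s) = (2,4,2,3)` (`Chi`) and `(16,20,10,12)` (`Kap`) (`Par` holds: `3·4 ≤ 4·4`,
`12·20 ≤ 4·160`).  `(1/3)(3/2 + 4/3 - 1) = 11/18`; `trm = mm 2 4 2 3 - mm 16 20 10 12` (casts), tsum of
a difference. -/
def ASM : Prop :=
  (∃ C : ℝ, ∀ n : ℕ, 1 ≤ n → |(F n : ℝ) - lam * n| ≤ C * (1 + Real.log n)) ∧
  (∃ C : ℝ, ∀ n : ℕ, 1 ≤ n → |(F5 n : ℝ) - lam5 * n| ≤ C * (1 + Real.log n))

/-- **TND.**  A sequence with `|a n - L n| ≤ C (1 + log n)` has `a n / n → L`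
(`log n / n → 0`: `Real.isLittleO_log_id_atTop`). -/
def TND : Prop :=
  ∀ (a : ℕ → ℕ) (L C : ℝ), (∀ n : ℕ, 1 ≤ n → |(a n : ℝ) - L * n| ≤ C * (1 + Real.log n)) →
    Tendsto (fun n : ℕ => (a n : ℝ) / n) atTop (𝓝 L)

/-- `R₁(b) = R(3^b)`, `R(y) = μ([y,∞) ∩ ⋃_j [2·4^j, 4·4^j))`. -/
noncomputable def R1 (b : ℕ) : ℝ :=
  if kk b % 2 = 0 then 1 / (3 * 2 ^ kk b) else 1 / 3 ^ b - 1 / (3 * 2 ^ kk b)

/-- `R₂(b) = R(2·3^b)`. -/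
noncomputable def R2 (b : ℕ) : ℝ :=
  if kk b % 2 = 0 then 1 / (2 * 3 ^ b) - 1 / (6 * 2 ^ kk b) else 1 / (6 * 2 ^ kk b)

/-- **SERA.**  The inner sums.
Proof.  `k = kk b`, `2^k ≤ 3^b < 2^(k+1)`; put `u = 3^b/2^k ∈ [1,2)`.  `k' = kk (b+1) = k + 1` if
`3·3^b < 4·2^k` (`u < 4/3`), else `k + 2` (`3·3^b < 6·2^k < 8·2^k`).
*First sum.*  `[2·3^b,3·3^b)` against `[2·4^j,4·4^j)`.
`k = 2i`: only `j = i` meets it (`2·4^(i-1)·… `: the interval `[2·4^j,4·4^j)` with `j < i` ends at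
`4·4^j ≤ 4^i ≤ 3^b`; with `j > i` begins at `8·4^i > 3·3^b`); the intersection is
`[2·3^b, min(3·3^b, 4·2^k))` (`2·3^b ≥ 2·2^k`, `2·3^b < 4·2^k`).  So the sum is
`1/(2·3^b) - 1/(3·3^b)` if `u < 4/3` and `1/(2·3^b) - 1/(4·2^k)` if `u ≥ 4/3`.
`k = 2i+1` (`2^k = 2·4^i`): `j ≤ i`: ends at `4·4^i = 2·2^k ≤ 2·3^b`; `j = i+1`: `[4·2^k, 8·2^k)`, meets
`[2·3^b,3·3^b)` in `[4·2^k, 3·3^b)` (`2·3^b < 4·2^k`, `3·3^b < 8·2^k`), nonempty iff `u > 4/3`; `j ≥ i+2`: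
begins at `16·2^k`.  So the sum is `0` if `u ≤ 4/3` and `1/(4·2^k) - 1/(3·3^b)` if `u > 4/3`
(`u = 4/3` is impossible for `b ≥ 1` and irrelevant).
*It equals `R₂(b) - R₁(b+1)`*: `k` even, `u < 4/3`: `k' = k+1` odd,
`R₁(b+1) = 1/3^(b+1) - 1/(6·2^k)`: `R₂ - R₁ = 1/(2·3^b) - 1/3^(b+1)`.  `k` even, `u ≥ 4/3`: `k' = k+2`
even, `R₁(b+1) = 1/(12·2^k)`: `R₂ - R₁ = 1/(2·3^b) - 1/(4·2^k)`.  `k` odd, `u < 4/3`: `k'` even,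
`R₁(b+1) = 1/(6·2^k) = R₂(b)`.  `k` odd, `u ≥ 4/3`: `R₁(b+1) = 1/3^(b+1) - 1/(12·2^k)`:
`R₂ - R₁ = 1/(4·2^k) - 1/3^(b+1)`.
(The inner sums are `tsum_eq_single`.) -/
def SERA : Prop :=
  ∀ b : ℕ, (∑' j : ℕ, mm 2 4 2 3 (j, b)) = R2 b - R1 (b + 1)

/-- **SERB.**  The second inner sum.
Proof.  `k = kk b`, `u = 3^b/2^k ∈ [1,2)`.  `[10·3^b,12·3^b) = 2^k[10u,12u)` against
`[16·4^j,20·4^j)`.  `k = 2i`: `j < i`: ends at `20·4^(i-1) = 5·2^k ≤ 10·3^b`; `j > i`: begins at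
`64·2^k > 12·3^b`; `j = i`: `[16,20)` against `[10u,12u)` (unit `2^k`): `u ≥ 5/3`: `10u > 16`,
`12u ≥ 20`: `1/(10·3^b) - 1/(20·2^k)`; `8/5 < u < 5/3`: `10u > 16`, `12u < 20`:
`1/(10·3^b) - 1/(12·3^b) = 1/(60·3^b)`; `4/3 < u ≤ 8/5`: `10u ≤ 16`, `12u ∈ (16,20)`:
`1/(16·2^k) - 1/(12·3^b)`; `u ≤ 4/3`: `12u ≤ 16`: empty.  `k = 2i+1`, `2^k = 2·4^i`: `j ≤ i`: ends at
`20·4^i = 10·2^k ≤ 10·3^b`; `j ≥ i+1`: begins at `64·4^i = 32·2^k > 24·2^k > 12·3^b`: `0`. -/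
def SERB : Prop := ∀ b : ℕ, (∑' j : ℕ, mm 16 20 10 12 (j, b)) = wb b

/-- **SERC**, from `SERA`, `SERB`, `DBLA` (only its summability for `(2,4,2,3)`, `(16,20,10,12)`).
Proof.  `∑'_{(j,b)} = ∑'_b ∑'_j` (`Summable.tsum_prod` after swapping, `(Equiv.prodComm ..)`,
`Summable.tsum_comm'`).  Second series: `∑'_b wb b = wb 0 + WW`, `wb 0 = 0` (`kk 0 = 0`, `3^0/2^0 = 1`).
First: `∑'_{b ≥ 0} (R₂(b) - R₁(b+1)) = R₂(0) + ∑'_{b ≥ 1} (R₂(b) - R₁(b))` (all summable: bounded by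
`2/3^b·const`, since `1/2^(kk b) < 2/3^b`), `R₂(0) = 1/2 - 1/6 = 1/3`, and for `b ≥ 1`
`R₂(b) - R₁(b) = -(1/4)(-1)^k (2/2^k - 3/3^b) - (1/4)/3^b` (`k` even: both sides
`1/(2·3^b) - 1/(2·2^k)`; `k` odd: `1/(2·2^k) - 1/3^b`), `∑_{b≥1} 1/3^b = 1/2`.  So the first series is
`1/3 - 1/8 - V/4 = 5/24 - V/4`; `11/18 + (5/24)/3 = 49/72`.
`trm = mm 2 4 2 3 - mm 16 20 10 12`.  So `λ₅ = 49/72 - V/12`, `λ = 49/72 - V/12 - W/3`. -/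
def SERC : Prop := SER

/-- **NUM**, from `SER`.
Proof.  `|2/2^k - 3/3^b| = 3^{-b}|2u - 3| ≤ 3^{-b}` (`u = 3^b/2^k ∈ [1,2)`), and
`0 ≤ wb b ≤ 1/(60·3^b)` (`u ≥ 5/3`: `1/(10·3^b) - 1/(20·2^k) = (1/3^b)(1/10 - u/20)`,
`≤ 1/60`; `u ≤ 8/5`: `(1/3^b)(u/16 - 1/12) ≤ 1/60`).  So cutting both series after `b = 22` costs at
most `(1/12 + 1/180)(1/2) 3^{-22} < 2·10^{-12}`.  The finite sums: `kk b` for `b ≤ 22` is
`1,3,4,6,7,9,11,12,14,15,17,19,20,22,23,25,26,28,30,31,33,34` (`b = 1,…,22`); evaluate with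
`norm_num` / `decide`.  `λ = 0.672965651199489…`. -/
def NUM : Prop := 0.672965651 < lam ∧ lam < 0.672965652

end Pool.Agent.Helper96.VF
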