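import Pool.Agent.Helper96.VF.Goals
import Pool.Agent.Helper96.VF.GoalsL

/-!
# Project VF: final assembly (goals as hypotheses)
-/

set_option autoImplicit false

open Filter Topology

namespace Pool.Agent.Helper96.VF

theorem Aset_subset (n : ℕ) : Aset n ⊆ Finset.Icc 1 n := by
  classical
  intro x hx
  unfold Aset at hx
  exact (Finset.mem_filter.1 hx).1

/-- `F n` is the largest size of an admissible subset of `{1,…,n}`. -/
theorem isGreatest_F (hUP : UP) (hADM : ADM) (hLOW : LOW) (n : ℕ) :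
    IsGreatest
      {k : ℕ | ∃ A : Finset ℕ, A ⊆ Finset.Icc 1 n ∧
        (∀ a ∈ A, ∀ b ∈ A, ∀ d ∈ A, a ≠ b → a ≠ d → b ≠ d → ¬ (a ∣ b ∧ a ∣ d)) ∧
        A.card = k} (F n) := by
  constructor
  · exact ⟨Aset n, Aset_subset n, hADM n, hLOW n⟩
  · rintro k ⟨A, hA, hadm, rfl⟩
    exact hUP n A hA hadm

/-- `F(n)/n → λ`. -/
theorem tendsto_F (hASM : ASM) (hTND : TND) :
    Tendsto (fun n : ℕ => (F n : ℝ) / n) atTop (𝓝 lam) := by
  obtain ⟨C, hC⟩ := hASM.1
  exact hTND F lam C hC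

theorem tendsto_F5 (hASM : ASM) (hTND : TND) :
    Tendsto (fun n : ℕ => (F5 n : ℝ) / n) atTop (𝓝 lam5) := by
  obtain ⟨C, hC⟩ := hASM.2
  exact hTND F5 lam5 C hC

/-- irrationality of `λ` from that of `V + 4 W`. -/
theorem irr_lam (hSER : SER) (h : Irrational (VV + 4 * WW)) : Irrational lam := by
  rw [hSER.1]
  rintro ⟨q, hq⟩
  refine h ⟨49 / 6 - 12 * q, ?_⟩
  push_cast
  linarith

/-- The frozen statement, from the goals. -/
theorem frozen (hUP : UP) (hADM : ADM) (hLOW : LOW) (hASM : ASM) (hTND : TND) (hSER : SER)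
    (hirr : Irrational (VV + 4 * WW)) :
    ∃ c : ℝ, Irrational c ∧ ∃ f : ℕ → ℕ,
      (∀ n : ℕ, IsGreatest
        {k : ℕ | ∃ A : Finset ℕ, A ⊆ Finset.Icc 1 n ∧
          (∀ a ∈ A, ∀ b ∈ A, ∀ d ∈ A, a ≠ b → a ≠ d → b ≠ d → ¬ (a ∣ b ∧ a ∣ d)) ∧
          A.card = k} (f n)) ∧
      Tendsto (fun n : ℕ => (f n : ℝ) / (n : ℝ)) atTop (nhds c) :=
  ⟨lam, irr_lam hSER hirr, F, isGreatest_F hUP hADM hLOW, tendsto_F hASM hTND⟩

open Classical in
theorem sup_eq_F (hUP : UP) (hADM : ADM) (hLOW : LOW) (n : ℕ) :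
    (((Finset.Icc 1 n).powerset.filter
      (fun A : Finset ℕ =>
        ∀ a ∈ A, ∀ b ∈ A, ∀ c ∈ A,
          a ≠ b → a ≠ c → b ≠ c → ¬ (a ∣ b ∧ a ∣ c))).sup Finset.card : ℕ) = F n := by
  apply le_antisymm
  · apply Finset.sup_le
    intro A hA
    rw [Finset.mem_filter, Finset.mem_powerset] at hA
    exact hUP n A hA.1 hA.2
  · rw [← hLOW n]
    apply Finset.le_sup (f := Finset.card)
    rw [Finset.mem_filter, Finset.mem_powerset]
    exact ⟨Aset_subset n, hADM n⟩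

open Classical in
/-- The second frozen statement (S18665), from the goals. -/
theorem frozen2 (hUP : UP) (hADM : ADM) (hLOW : LOW) (hASM : ASM) (hTND : TND) (hSER : SER)
    (hirr : Irrational (VV + 4 * WW)) :
    ∃ L : ℝ,
      Filter.Tendsto
        (fun n : ℕ =>
          ((((Finset.Icc 1 n).powerset.filter
              (fun A : Finset ℕ =>
                ∀ a ∈ A, ∀ b ∈ A, ∀ c ∈ A,
                  a ≠ b → a ≠ c → b ≠ c → ¬ (a ∣ b ∧ a ∣ c))).sup Finset.card : ℕ) : ℝ)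
            / (n : ℝ))
        Filter.atTop (nhds L) ∧ Irrational L := by
  refine ⟨lam, ?_, irr_lam hSER hirr⟩
  refine (tendsto_F hASM hTND).congr fun n => ?_
  rw [sup_eq_F hUP hADM hLOW n]

end Pool.Agent.Helper96.VF
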