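import Pool.Agent.Helper96.VF.GoalsL
import Pool.Agent.Helper33.IR.Defs

/-!
# Project VF: the bridge between `λ` (double series) and helper33's constant `V`

`λ = 11/18 + V/3`.
-/

set_option autoImplicit false

open Pool.Agent.Helper33.IR (rr ss om ze)

namespace Pool.Agent.Helper96.VF

open Classical in
/-- coefficient of `1/3^b` in `∑ mm p q r s`. -/
noncomputable def dA (p q r s b : ℕ) : ℝ :=
  (if ∃ j : ℕ, p * 4 ^ j ≤ r * 3 ^ b ∧ r * 3 ^ b < q * 4 ^ j then 1 / (r : ℝ) else 0) -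
    (if ∃ j : ℕ, p * 4 ^ j < s * 3 ^ b ∧ s * 3 ^ b < q * 4 ^ j then 1 / (s : ℝ) else 0)

open Classical in
/-- coefficient of `1/4^j` in `∑ mm p q r s`. -/
noncomputable def dB (p q r s j : ℕ) : ℝ :=
  (if ∃ b : ℕ, r * 3 ^ b < p * 4 ^ j ∧ p * 4 ^ j < s * 3 ^ b then 1 / (p : ℝ) else 0) -
    (if ∃ b : ℕ, r * 3 ^ b < q * 4 ^ j ∧ q * 4 ^ j ≤ s * 3 ^ b then 1 / (q : ℝ) else 0)

/-- **BR1.**  Splitting the double series into two simple ones.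
Proof.  For `x = (j,b)` put
`f₁ x = [p4^j ≤ r3^b < q4^j] / (r3^b)`, `f₂ x = [r3^b < p4^j < s3^b] / (p4^j)`,
`f₃ x = [p4^j < s3^b < q4^j] / (s3^b)`, `f₄ x = [r3^b < q4^j ≤ s3^b] / (q4^j)`.
*`mm x = f₁ x + f₂ x - f₃ x - f₄ x`.*  Let `α = max(p4^j, r3^b)`, `β = min(q4^j, s3^b)`.  Each of the four
conditions implies `α < β` (use `p < q`, `r < s`); and if `α < β` then exactly one of the first two holds
(`α = r3^b` iff `p4^j ≤ r3^b`, and then `r3^b < q4^j`; otherwise `α = p4^j > r3^b`, `p4^j < s3^b`) and its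
`f` is `1/α`, and exactly one of the last two, and its `f` is `1/β` (`β = s3^b < q4^j`, then
`p4^j < s3^b`; or `β = q4^j ≤ s3^b`, then `r3^b < q4^j`).  If `α ≥ β` all are `0` and `mm x = 0`.
*Uniqueness.*  For fixed `b` at most one `j` satisfies the condition of `f₁` (if `j < j'`,
`r3^b < q4^j ≤ 4p4^j ≤ p4^(j') ≤ r3^b`), the same for `f₃`; for fixed `j` at most one `b` satisfies the
condition of `f₂` (if `b < b'`: `p4^j < s3^b ≤ 3r3^b ≤ r3^(b') < p4^j`), the same for `f₄`.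
So `∑'_j f₁(j,b) = [∃ j ..]/(r3^b) ≤ 3^(-b)`, hence `f₁` is summable on `ℕ × ℕ` and its sum is
`∑'_b [∃ j ..] (1/r) / 3^b` (`summable_prod_of_nonneg` on the swapped pairs, `Summable.tsum_prod'`, or
`HasSum.prod_fiberwise`; each inner sum has one nonzero term, `tsum_eq_single`).  The same for
`f₃` (sum over `b`), `f₂`, `f₄` (sum over `j`).  Add up. -/
def BR1 : Prop :=
  ∀ p q r s : ℕ, Par p q r s →
    Summable (fun b : ℕ => dA p q r s b / 3 ^ b) ∧ Summable (fun j : ℕ => dB p q r s j / 4 ^ j) ∧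
    (∑' x, mm p q r s x) = (∑' b : ℕ, dA p q r s b / 3 ^ b) + ∑' j : ℕ, dB p q r s j / 4 ^ j

/-- **BRA.**  The conditions at `3^b` (`rr b = 3^b/4^m ∈ [1,4)`, `m = Nat.log 4 (3^b)`).
Proof.  1: `4^j ≤ 3^b < 2·4^j` forces `j = m` (`4^m ≤ 3^b < 4^(m+1)`), so it says `rr b < 2`.
2: `2·4^j < 3^(b+1) < 4·4^j` forces `j = Nat.log 4 (3^(b+1))`, so it says `rr (b+1) > 2`.
3: `16·4^j ≤ 10·3^b < 20·4^j`: `(8/5) 4^j ≤ 3^b < 2·4^j`, `j = m`: `8/5 ≤ rr b < 2`.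
4: `16·4^j < 12·3^b < 20·4^j`: `4^(j+1) < 3^(b+1) < 5·4^j`, so `j + 1 = Nat.log 4 (3^(b+1)) = m'` and
`1 < rr (b+1) < 5/4`; conversely `1 < rr (b+1) ≤ 5/4` gives `m' ≥ 1` (if `m' = 0` then `rr (b+1) =
3^(b+1) ≥ 3`), `j = m' - 1`, and `rr (b+1) = 5/4` is impossible (`4·3^(b+1) = 5·4^(m')`, mod `3`). -/
def BRA : Prop :=
  ∀ b : ℕ,
    ((∃ j : ℕ, 2 * 4 ^ j ≤ 2 * 3 ^ b ∧ 2 * 3 ^ b < 4 * 4 ^ j) ↔ rr b < 2) ∧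
    ((∃ j : ℕ, 2 * 4 ^ j < 3 * 3 ^ b ∧ 3 * 3 ^ b < 4 * 4 ^ j) ↔ 2 < rr (b + 1)) ∧
    ((∃ j : ℕ, 16 * 4 ^ j ≤ 10 * 3 ^ b ∧ 10 * 3 ^ b < 20 * 4 ^ j) ↔ (8 / 5 ≤ rr b ∧ rr b < 2)) ∧
    ((∃ j : ℕ, 16 * 4 ^ j < 12 * 3 ^ b ∧ 12 * 3 ^ b < 20 * 4 ^ j) ↔
      (1 < rr (b + 1) ∧ rr (b + 1) ≤ 5 / 4))

/-- **BRB.**  The conditions at `4^j` (`ss j = 4^j/3^k ∈ [1,3)`, `k = Nat.log 3 (4^j)`).
Proof.  1: `3^b < 4^j < (3/2) 3^b` forces `b = k`: `1 < ss j < 3/2`.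
2: `2·3^b < 4^(j+1) ≤ 3·3^b`: `4^(j+1) = 3^(b+1)` is impossible (parity), so `b = Nat.log 3 (4^(j+1))`
and `ss (j+1) > 2`; conversely clear.
3: `10·3^b < 16·4^j < 12·3^b`: `(10/9) 3^(b+2) < 4^(j+2) < (4/3) 3^(b+2)`, so
`b + 2 = Nat.log 3 (4^(j+2))`, `10/9 < ss (j+2) < 4/3`; conversely `Nat.log 3 (4^(j+2)) ≥ 2` as
`16 ≥ 9`.
4: `10·3^b < 20·4^j ≤ 12·3^b`: `3^b < 2·4^j`, `5·4^j ≤ 3·3^b`; `b = 0` is impossible (`5·4^j ≤ 3`), and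
`(3/2) 3^(b-1) < 4^j ≤ (9/5) 3^(b-1)`, so `b - 1 = k`, `3/2 < ss j ≤ 9/5`; conversely `b = k + 1`. -/
def BRB : Prop :=
  ∀ j : ℕ,
    ((∃ b : ℕ, 2 * 3 ^ b < 2 * 4 ^ j ∧ 2 * 4 ^ j < 3 * 3 ^ b) ↔ (1 < ss j ∧ ss j < 3 / 2)) ∧
    ((∃ b : ℕ, 2 * 3 ^ b < 4 * 4 ^ j ∧ 4 * 4 ^ j ≤ 3 * 3 ^ b) ↔ 2 < ss (j + 1)) ∧
    ((∃ b : ℕ, 10 * 3 ^ b < 16 * 4 ^ j ∧ 16 * 4 ^ j < 12 * 3 ^ b) ↔
      (10 / 9 < ss (j + 2) ∧ ss (j + 2) < 4 / 3)) ∧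
    ((∃ b : ℕ, 10 * 3 ^ b < 20 * 4 ^ j ∧ 20 * 4 ^ j ≤ 12 * 3 ^ b) ↔ (3 / 2 < ss j ∧ ss j ≤ 9 / 5))

/-- **BR2**, from `BR1`, `BRA`, `BRB`, `DBLA` (summability of `mm`).
Proof.  `trm = mm 2 4 2 3 - mm 16 20 10 12` (casts), `Par` holds for both.  By `BR1` the sum is
`∑'_b (dA 2 4 2 3 b - dA 16 20 10 12 b)/3^b + ∑'_j (dB 2 4 2 3 j - dB 16 20 10 12 j)/4^j`.
By `BRA`: `dA 2 4 2 3 b = (1/2)[rr b < 2] - (1/3)[2 < rr (b+1)]` and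
`dA 16 20 10 12 b = (1/10)[8/5 ≤ rr b < 2] - (1/12)[1 < rr (b+1) ≤ 5/4]`; shifting the index of the
terms in `b + 1` (`(1/3)/3^b = 1/3^(b+1)`, `(1/12)/3^b = (1/4)/3^(b+1)`; the missing terms of index `0`
vanish: `rr 0 = 1`) the first series is `∑'_b om (rr b)/3^b`.
By `BRB`: `dB 2 4 2 3 j = (1/2)[1 < ss j < 3/2] - (1/4)[2 < ss (j+1)]`,
`dB 16 20 10 12 j = (1/16)[10/9 < ss (j+2) < 4/3] - (1/20)[3/2 < ss j ≤ 9/5]`; shift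
(`(1/4)/4^j = 1/4^(j+1)`, `(1/16)/4^j = 1/4^(j+2)`; the missing terms of index `0` and `1` vanish:
`ss 0 = 1`, `ss 1 = 4/3`): the second series is `∑'_j ze (ss j)/4^j`. -/
def BR2 : Prop := (∑' x : ℕ × ℕ, trm x) = Pool.Agent.Helper33.IR.V

end Pool.Agent.Helper96.VF
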