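import Pool.Agent.Helper96.VF.Fin
import Pool.Agent.Helper96.VF.GoalsB

/-!
# Project VF: final assembly with helper33's constant `V`
-/

set_option autoImplicit false

open Filter Topology

namespace Pool.Agent.Helper96.VF

theorem irr_lam' (h2 : BR2) (h : Irrational Pool.Agent.Helper33.IR.V) : Irrational lam := by
  unfold lam
  rw [h2]
  rintro ⟨q, hq⟩
  refine h ⟨3 * (q - 11 / 18), ?_⟩
  push_cast
  linarith

/-- S17277 from the goals. -/
theorem frozen' (hUP : UP) (hADM : ADM) (hLOW : LOW) (hASM : ASM) (hTND : TND) (h2 : BR2)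
    (hirr : Irrational Pool.Agent.Helper33.IR.V) :
    ∃ c : ℝ, Irrational c ∧ ∃ f : ℕ → ℕ,
      (∀ n : ℕ, IsGreatest
        {k : ℕ | ∃ A : Finset ℕ, A ⊆ Finset.Icc 1 n ∧
          (∀ a ∈ A, ∀ b ∈ A, ∀ d ∈ A, a ≠ b → a ≠ d → b ≠ d → ¬ (a ∣ b ∧ a ∣ d)) ∧
          A.card = k} (f n)) ∧
      Tendsto (fun n : ℕ => (f n : ℝ) / (n : ℝ)) atTop (nhds c) :=
  ⟨lam, irr_lam' h2 hirr, F, isGreatest_F hUP hADM hLOW, tendsto_F hASM hTND⟩

open Classical in
/-- S18665 from the goals. -/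
theorem frozen2' (hUP : UP) (hADM : ADM) (hLOW : LOW) (hASM : ASM) (hTND : TND) (h2 : BR2)
    (hirr : Irrational Pool.Agent.Helper33.IR.V) :
    ∃ L : ℝ,
      Filter.Tendsto
        (fun n : ℕ =>
          ((((Finset.Icc 1 n).powerset.filter
              (fun A : Finset ℕ =>
                ∀ a ∈ A, ∀ b ∈ A, ∀ c ∈ A,
                  a ≠ b → a ≠ c → b ≠ c → ¬ (a ∣ b ∧ a ∣ c))).sup Finset.card : ℕ) : ℝ)
            / (n : ℝ))
        Filter.atTop (nhds L) ∧ Irrational L := by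
  refine ⟨lam, ?_, irr_lam' h2 hirr⟩
  refine (tendsto_F hASM hTND).congr fun n => ?_
  rw [sup_eq_F hUP hADM hLOW n]

end Pool.Agent.Helper96.VF
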